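import Pool.Agent.Q189.MF.TorD

/-!
# Other coordinates on the products of fibres
-/

set_option autoImplicit false

open PowerSeries Module

namespace Pool.Agent.Q189.MF

open Pool.Agent.Y916.Af Pool.Agent.Y916.Al Pool.Agent.Y916.Sl Pool.Agent.Q246.NR Pool.Agent.Q246.NR2

/-- polynomials in polynomials with a common denominator -/
theorem subst {V V' τ : Type} [Fintype V] [Fintype V'] [Fintype τ] [DecidableEq V] [DecidableEq τ]
    (S : V → MvPolynomial V' ℤ) (N d : ℕ) : ∃ (D : ℕ) (Λ : ℝ), 1 ≤ Λ ∧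
    ∀ (P : MvPolynomial (V ⊕ τ) ℤ), P.totalDegree ≤ d → ∀ H : ℝ, (∀ e, |((P.coeff e : ℤ) : ℝ)| ≤ H) →
    ∃ P' : MvPolynomial (V' ⊕ τ) ℤ, P'.totalDegree ≤ D ∧ (∀ e, |((P'.coeff e : ℤ) : ℝ)| ≤ Λ * H) ∧
      ∀ (y' : V' → ℂ) (y : V → ℂ) (u : τ → ℂ), (∀ v, (N : ℂ) * y v = MvPolynomial.aeval y' (S v)) →
        MvPolynomial.aeval (Sum.elim y' u) P' = (N : ℂ) ^ d * MvPolynomial.aeval (Sum.elim y u) P := by
  classical
  set M : (V → Fin (d + 1)) → (τ → Fin (d + 1)) → MvPolynomial (V' ⊕ τ) ℤ := fun e w =>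
    MvPolynomial.C ((N : ℤ) ^ (d - ∑ v, (e v : ℕ))) * ((∏ v, (MvPolynomial.rename Sum.inl (S v)) ^ (e v : ℕ)) *
      ∏ t, MvPolynomial.X (Sum.inr t) ^ (w t : ℕ)) with hM
  refine ⟨∑ e, ∑ w, (M e w).totalDegree, 1 + ∑ e, ∑ w, len (M e w), ?_, fun P hP H hH => ?_⟩
  · have : 0 ≤ ∑ e, ∑ w, len (M e w) := Finset.sum_nonneg fun _ _ => Finset.sum_nonneg fun _ _ => len_nonneg _
    linarith
  have hH0 : 0 ≤ H := (abs_nonneg _).trans (hH 0)
  refine ⟨∑ e, ∑ w, MvPolynomial.C (P.coeff (tB (Sum.elim e w))) * M e w, ?_, ?_, ?_⟩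
  · refine (MvPolynomial.totalDegree_finsetSum _ _).trans (Finset.sup_le fun e _ => ?_)
    refine (MvPolynomial.totalDegree_finsetSum _ _).trans (Finset.sup_le fun w _ => ?_)
    refine (MvPolynomial.totalDegree_mul _ _).trans ?_
    rw [MvPolynomial.totalDegree_C, zero_add]
    refine le_trans ?_ (Finset.single_le_sum (f := fun e => ∑ w, (M e w).totalDegree)
      (fun _ _ => Nat.zero_le _) (Finset.mem_univ e))
    exact Finset.single_le_sum (f := fun w => (M e w).totalDegree) (fun _ _ => Nat.zero_le _) (Finset.mem_univ w)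
  · intro e₀
    have h1 := norm_coeff_le_len (∑ e, ∑ w, MvPolynomial.C (P.coeff (tB (Sum.elim e w))) * M e w) e₀
    rw [Int.norm_eq_abs] at h1
    refine h1.trans ?_
    refine (len_sum _ _).trans ?_
    calc _ ≤ ∑ e : V → Fin (d + 1), ∑ w : τ → Fin (d + 1), H * len (M e w) := by
          refine Finset.sum_le_sum fun e _ => (len_sum _ _).trans (Finset.sum_le_sum fun w _ => ?_)
          refine (len_mul _ _).trans ?_
          rw [len_C, Int.norm_eq_abs]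
          exact mul_le_mul_of_nonneg_right (hH _) (len_nonneg _)
      _ = (∑ e, ∑ w, len (M e w)) * H := by
          rw [Finset.sum_mul]
          refine Finset.sum_congr rfl fun e _ => ?_
          rw [Finset.sum_mul]
          exact Finset.sum_congr rfl fun w _ => mul_comm _ _
      _ ≤ _ := mul_le_mul_of_nonneg_right (by linarith) hH0
  · intro y' y u hy
    rw [eval_two P hP y u, map_sum, Finset.mul_sum]
    refine Finset.sum_congr rfl fun e _ => ?_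
    rw [map_sum, Finset.mul_sum]
    refine Finset.sum_congr rfl fun w _ => ?_
    by_cases hdeg : ∑ v, (e v : ℕ) ≤ d
    · rw [map_mul, MvPolynomial.aeval_C, hM]
      beta_reduce
      rw [map_mul, map_mul, MvPolynomial.aeval_C, map_prod, map_prod]
      have h1 : ∀ v, MvPolynomial.aeval (Sum.elim y' u) ((MvPolynomial.rename Sum.inl (S v)) ^ (e v : ℕ) :
          MvPolynomial (V' ⊕ τ) ℤ) = (N : ℂ) ^ (e v : ℕ) * y v ^ (e v : ℕ) := by
        intro v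
        rw [map_pow, MvPolynomial.aeval_rename, Sum.elim_comp_inl, ← hy v, mul_pow]
      have h2 : ∀ t, MvPolynomial.aeval (Sum.elim y' u) (MvPolynomial.X (Sum.inr t) ^ (w t : ℕ) :
          MvPolynomial (V' ⊕ τ) ℤ) = u t ^ (w t : ℕ) := by
        intro t
        rw [map_pow, MvPolynomial.aeval_X, Sum.elim_inr]
      simp only [h1, h2]
      rw [Finset.prod_mul_distrib, Finset.prod_pow_eq_pow_sum]
      have h3 : (N : ℂ) ^ d = (N : ℂ) ^ (d - ∑ v, (e v : ℕ)) * (N : ℂ) ^ (∑ v, (e v : ℕ)) := by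
        rw [← pow_add, Nat.sub_add_cancel hdeg]
      rw [h3]
      simp only [eq_intCast, Int.cast_pow, Int.cast_natCast]
      ring
    · have h0 : P.coeff (tB (Sum.elim e w)) = 0 := by
        by_contra hne
        apply hdeg
        have h1 := (MvPolynomial.le_totalDegree (MvPolynomial.mem_support_iff.2 hne)).trans hP
        rw [Finsupp.sum_fintype _ _ (fun _ => rfl), Fintype.sum_sum_type] at h1
        simp only [tB_apply, Sum.elim_inl, Sum.elim_inr] at h1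
        omega
      rw [h0]
      simp

variable {k : ℕ} {r : Fin k → ℕ}

/-- the two inequalities in the coordinates `φ` -/
def GdV {g : ℕ} {V : Type} (h : ∀ j, Fin (r j) → ℚ⟦X⟧) (φ : ((Σ j : Fin k, Option (Fin (r j))) → ℂ) → V → ℂ) (d B : ℕ)
    (ζ : Fin g → ℂ) (α : Fin k → ℂ) (H : ℝ) : Prop :=
  ∀ ℓ : Fin k → ℂ, (∀ j, Complex.exp (ℓ j) = α j) → (∀ j, ‖ℓ j‖ ≤ H) →
    (∀ P : MvPolynomial (V ⊕ Fin k) ℤ, P.totalDegree ≤ d → (∀ e, |((P.coeff e : ℤ) : ℝ)| ≤ H) →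
      (∃ y ∈ FibD h fun j => 1 / α j, MvPolynomial.aeval (Sum.elim (φ y) α) P ≠ 0) →
      1 ≤ H ^ B * ‖MvPolynomial.aeval (Sum.elim (φ (ptD h α ℓ)) α) P‖) ∧
    ∀ P : MvPolynomial (V ⊕ (Fin g ⊕ Fin k)) ℤ, P.totalDegree ≤ d →
      (∀ e, |((P.coeff e : ℤ) : ℝ)| ≤ H) → ∀ y ∈ FibD h fun j => 1 / α j,
      ‖MvPolynomial.aeval (Sum.elim (φ y) (Sum.elim ζ α)) P‖ ≤
        (H * max 1 ‖y‖) ^ B * ‖MvPolynomial.aeval (Sum.elim (φ (ptD h α ℓ)) (Sum.elim ζ α)) P‖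

theorem conv {V : Type} [Fintype V] [DecidableEq V] (h : ∀ j, Fin (r j) → ℚ⟦X⟧)
    (φ : ((Σ j : Fin k, Option (Fin (r j))) → ℂ) → V → ℂ)
    (S : V → MvPolynomial (Σ j : Fin k, Option (Fin (r j))) ℤ) (N : ℕ) (hN : 1 ≤ N)
    (hφ : ∀ y v, (N : ℂ) * φ y v = MvPolynomial.aeval y (S v)) (g d : ℕ) : ∃ D : ℕ, ∀ B₀ : ℕ, ∃ B : ℕ, ∃ H₀ : ℝ,
    ∀ (ζ : Fin g → ℂ) (α : Fin k → ℂ) (H : ℝ), H₀ ≤ H → GdD h D B₀ ζ α (H ^ 2) → GdV h φ d B ζ α H := by
  classical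
  obtain ⟨D₁, Λ₁, hΛ₁, hs₁⟩ := subst (τ := Fin k) S N d
  obtain ⟨D₂, Λ₂, hΛ₂, hs₂⟩ := subst (τ := Fin g ⊕ Fin k) S N d
  refine ⟨max D₁ D₂, fun B₀ => ⟨2 * B₀ + 1, max (max Λ₁ Λ₂) ((N : ℝ) ^ d), fun ζ α H hH hg => ?_⟩⟩
  have hHΛ₁ : Λ₁ ≤ H := (le_max_left _ _).trans ((le_max_left _ _).trans hH)
  have hHΛ₂ : Λ₂ ≤ H := (le_max_right _ _).trans ((le_max_left _ _).trans hH)
  have hHN : (N : ℝ) ^ d ≤ H := (le_max_right _ _).trans hH
  have hH1 : 1 ≤ H := hΛ₁.trans hHΛ₁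
  have hHp : 0 < H := by linarith
  have hNp : 0 < (N : ℝ) ^ d := by
    have : (0 : ℝ) < N := by exact_mod_cast hN
    positivity
  have hNn : ‖(N : ℂ) ^ d‖ = (N : ℝ) ^ d := by rw [norm_pow, Complex.norm_natCast]
  intro ℓ hℓ hℓH
  obtain ⟨g1, g2⟩ := hg ℓ hℓ fun j => (hℓH j).trans (le_self_pow₀ hH1 (by norm_num))
  refine ⟨fun P hPd hPH hex => ?_, fun P hPd hPH y hy => ?_⟩
  · obtain ⟨P', h1, h2, h3⟩ := hs₁ P hPd H hPH
    obtain ⟨y, hy, hy0⟩ := hex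
    have h4 := g1 P' (h1.trans (le_max_left _ _)) (fun e => (h2 e).trans (by
      rw [pow_two]
      exact mul_le_mul_of_nonneg_right hHΛ₁ hHp.le)) ⟨y, hy, by
        rw [h3 y (φ y) α (hφ y)]
        refine mul_ne_zero (pow_ne_zero _ ?_) hy0
        exact_mod_cast (by omega : N ≠ 0)⟩
    rw [h3 _ _ α (hφ _), norm_mul, hNn, ← pow_mul] at h4
    refine h4.trans ?_
    calc H ^ (2 * B₀) * ((N : ℝ) ^ d * ‖MvPolynomial.aeval (Sum.elim (φ (ptD h α ℓ)) α) P‖)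
        ≤ H ^ (2 * B₀) * (H * ‖MvPolynomial.aeval (Sum.elim (φ (ptD h α ℓ)) α) P‖) :=
          mul_le_mul_of_nonneg_left (mul_le_mul_of_nonneg_right hHN (norm_nonneg _)) (by positivity)
      _ = _ := by rw [pow_succ]; ring
  · obtain ⟨P', h1, h2, h3⟩ := hs₂ P hPd H hPH
    have h4 := g2 P' (h1.trans (le_max_right _ _)) (fun e => (h2 e).trans (by
      rw [pow_two]
      exact mul_le_mul_of_nonneg_right hHΛ₂ hHp.le)) y hy
    rw [h3 _ _ _ (hφ _), h3 _ _ _ (hφ _), norm_mul, norm_mul, hNn] at h4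
    have hM1 : 1 ≤ max 1 ‖y‖ := le_max_left _ _
    have hHM : 1 ≤ H * max 1 ‖y‖ := by
      calc (1 : ℝ) = 1 * 1 := by norm_num
        _ ≤ _ := mul_le_mul hH1 hM1 zero_le_one hHp.le
    have h5 : H ^ 2 * max 1 ‖y‖ ≤ (H * max 1 ‖y‖) ^ 2 := by
      rw [mul_pow]
      exact mul_le_mul_of_nonneg_left (le_self_pow₀ hM1 (by norm_num)) (by positivity)
    refine le_of_mul_le_mul_left (a := (N : ℝ) ^ d) (h4.trans ?_) hNp
    calc (H ^ 2 * max 1 ‖y‖) ^ B₀ * ((N : ℝ) ^ d * ‖MvPolynomial.aeval (Sum.elim (φ (ptD h α ℓ)) (Sum.elim ζ α)) P‖)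
        ≤ (H * max 1 ‖y‖) ^ (2 * B₀ + 1) * ((N : ℝ) ^ d * ‖MvPolynomial.aeval (Sum.elim (φ (ptD h α ℓ)) (Sum.elim ζ α)) P‖) := by
          refine mul_le_mul_of_nonneg_right ?_ (by positivity)
          calc (H ^ 2 * max 1 ‖y‖) ^ B₀ ≤ ((H * max 1 ‖y‖) ^ 2) ^ B₀ := pow_le_pow_left₀ (by positivity) h5 _
            _ = (H * max 1 ‖y‖) ^ (2 * B₀) := by rw [← pow_mul]
            _ ≤ _ := pow_le_pow_right₀ hHM (by omega)
      _ = _ := by ring

end Pool.Agent.Q189.MF
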