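import Pool.Agent.Q246.NR.Len
import Pool.Agent.Q246.NR2.Trans

/-!
# Polynomials on products of fibres of several families

The proofs are those of `Pool.Agent.Q246.LN.Exp` (helper246), with a family for each point.
-/

set_option autoImplicit false

namespace Pool.Agent.Q189.MF

open Pool.Agent.Q246.NR Pool.Agent.Q246.NR2

section
variable {k d : ℕ} {r : Fin k → ℕ} {τ : Type} [Fintype τ] [DecidableEq τ]

/-- the coefficients of a polynomial in the variables of the points -/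
noncomputable def Qe (d : ℕ) (Q : MvPolynomial ((Σ j : Fin k, Option (Fin (r j))) ⊕ τ) ℤ) (e : (Σ j : Fin k, Option (Fin (r j))) → Fin (d + 1)) :
    MvPolynomial τ ℤ :=
  ∑ w : τ → Fin (d + 1), MvPolynomial.C (Q.coeff (tB (Sum.elim e w))) * ∏ t, MvPolynomial.X t ^ (w t : ℕ)

lemma aeval_Qe (Q : MvPolynomial ((Σ j : Fin k, Option (Fin (r j))) ⊕ τ) ℤ) (hQ : Q.totalDegree ≤ d)
    (y : (Σ j : Fin k, Option (Fin (r j))) → ℂ) (u : τ → ℂ) : MvPolynomial.aeval (Sum.elim y u) Q =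
      ∑ e : (Σ j : Fin k, Option (Fin (r j))) → Fin (d + 1), MvPolynomial.aeval u (Qe d Q e) * ∏ s, y s ^ (e s : ℕ) := by
  rw [eval_two Q hQ y u]
  refine Finset.sum_congr rfl fun e _ => ?_
  rw [Qe, map_sum, Finset.sum_mul]
  refine Finset.sum_congr rfl fun w _ => ?_
  rw [map_mul, map_prod, MvPolynomial.aeval_C]
  simp only [map_pow, MvPolynomial.aeval_X]
  rw [eq_intCast]
  ring

lemma deg_Qe (Q : MvPolynomial ((Σ j : Fin k, Option (Fin (r j))) ⊕ τ) ℤ) (e : (Σ j : Fin k, Option (Fin (r j))) → Fin (d + 1)) :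
    (Qe d Q e).totalDegree ≤ Fintype.card τ * d := by
  refine (MvPolynomial.totalDegree_finsetSum _ _).trans (Finset.sup_le fun w _ => ?_)
  refine (MvPolynomial.totalDegree_mul _ _).trans ?_
  rw [MvPolynomial.totalDegree_C, zero_add]
  refine (MvPolynomial.totalDegree_finsetProd _ _).trans ?_
  calc ∑ t, (MvPolynomial.X t ^ (w t : ℕ) : MvPolynomial τ ℤ).totalDegree ≤ ∑ _t : τ, d := by
        refine Finset.sum_le_sum fun t _ => ?_
        rw [MvPolynomial.totalDegree_X_pow]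
        have := (w t).2
        omega
    _ = Fintype.card τ * d := by rw [Finset.sum_const, Finset.card_univ, smul_eq_mul]

lemma len_Qe (Q : MvPolynomial ((Σ j : Fin k, Option (Fin (r j))) ⊕ τ) ℤ) (H : ℝ) (hH : ∀ e, |((Q.coeff e : ℤ) : ℝ)| ≤ H)
    (e : (Σ j : Fin k, Option (Fin (r j))) → Fin (d + 1)) : len (Qe d Q e) ≤ Fintype.card (τ → Fin (d + 1)) * H := by
  refine (len_sum _ _).trans ?_
  calc ∑ w : τ → Fin (d + 1), len (MvPolynomial.C (Q.coeff (tB (Sum.elim e w))) * ∏ t, MvPolynomial.X t ^ (w t : ℕ))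
      ≤ ∑ _w : τ → Fin (d + 1), H := by
        refine Finset.sum_le_sum fun w _ => (len_mul _ _).trans ?_
        rw [len_C]
        have h1 : len (∏ t, MvPolynomial.X t ^ (w t : ℕ) : MvPolynomial τ ℤ) ≤ 1 := by
          refine (len_prod _ _).trans ?_
          refine Finset.prod_le_one (fun _ _ => len_nonneg _) fun t _ => (len_pow _ _).trans ?_
          rw [len_X, one_pow]
        have h2 : ‖Q.coeff (tB (Sum.elim e w))‖ ≤ H := by
          rw [Int.norm_eq_abs]
          exact hH _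
        calc _ ≤ ‖Q.coeff (tB (Sum.elim e w))‖ * 1 := mul_le_mul_of_nonneg_left h1 (norm_nonneg _)
          _ ≤ H := by rwa [mul_one]
    _ = _ := by rw [Finset.sum_const, Finset.card_univ, nsmul_eq_mul]

variable {ι : Fin k → Type} [∀ j, Fintype (ι j)] [∀ j, DecidableEq (ι j)]

/-- the coefficients with respect to the products of basis functions -/
noncomputable def AE (Q : MvPolynomial ((Σ j : Fin k, Option (Fin (r j))) ⊕ τ) ℤ)
    (F : ∀ j, (Fin (r j) → Fin (d + 1)) → ι j → MvPolynomial τ ℤ) (E : ∀ j, Fin (d + 1) × ι j) : MvPolynomial τ ℤ :=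
  ∑ e : (Σ j : Fin k, Option (Fin (r j))) → Fin (d + 1), Qe d Q e * ∏ j, (if e ⟨j, none⟩ = (E j).1 then
    F j (fun i => e ⟨j, some i⟩) (E j).2 else 0)

/-- the products of basis functions -/
noncomputable def vE (μ : ∀ j, ι j → Fin (r j) → Fin (d + 1)) (y : (Σ j : Fin k, Option (Fin (r j))) → ℂ) (E : ∀ j, Fin (d + 1) × ι j) : ℂ :=
  ∏ j, (y ⟨j, none⟩ ^ ((E j).1 : ℕ) * ∏ i, y ⟨j, some i⟩ ^ (μ j (E j).2 i : ℕ))

theorem expand (μ : ∀ j, ι j → Fin (r j) → Fin (d + 1)) (F : ∀ j, (Fin (r j) → Fin (d + 1)) → ι j → MvPolynomial τ ℤ)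
    (Q : MvPolynomial ((Σ j : Fin k, Option (Fin (r j))) ⊕ τ) ℤ) (hQ : Q.totalDegree ≤ d) (u : τ → ℂ) (a : Fin k → ℂ)
    (y : (Σ j : Fin k, Option (Fin (r j))) → ℂ) (hy : ∀ (j : Fin k) (s : Fin (r j) → Fin (d + 1)),
      a j * ∏ i, y ⟨j, some i⟩ ^ (s i : ℕ) = ∑ l, MvPolynomial.aeval u (F j s l) * ∏ i, y ⟨j, some i⟩ ^ (μ j l i : ℕ)) :
    (∏ j, a j) * MvPolynomial.aeval (Sum.elim y u) Q = ∑ E, MvPolynomial.aeval u (AE Q F E) * vE μ y E := by
  classical
  rw [aeval_Qe Q hQ, Finset.mul_sum]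
  have h1 : ∀ e : (Σ j : Fin k, Option (Fin (r j))) → Fin (d + 1), (∏ j, a j) * (MvPolynomial.aeval u (Qe d Q e) *
      ∏ s, y s ^ (e s : ℕ)) = ∑ E : ((j : Fin k) → Fin (d + 1) × ι j), MvPolynomial.aeval u (Qe d Q e) *
        ∏ j, ((if e ⟨j, none⟩ = (E j).1 then MvPolynomial.aeval u (F j (fun i => e ⟨j, some i⟩) (E j).2) else 0) *
          (y ⟨j, none⟩ ^ ((E j).1 : ℕ) * ∏ i, y ⟨j, some i⟩ ^ (μ j (E j).2 i : ℕ))) := by
    intro e
    have h2 : ∏ s, y s ^ (e s : ℕ) = ∏ j, (y ⟨j, none⟩ ^ (e ⟨j, none⟩ : ℕ) * ∏ i, y ⟨j, some i⟩ ^ (e ⟨j, some i⟩ : ℕ)) := by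
      rw [Fintype.prod_sigma]
      refine Finset.prod_congr rfl fun j _ => ?_
      rw [Fintype.prod_option]
    rw [h2, ← Finset.mul_sum]
    have h3 : ∑ E : ((j : Fin k) → Fin (d + 1) × ι j), ∏ j, ((if e ⟨j, none⟩ = (E j).1 then
        MvPolynomial.aeval u (F j (fun i => e ⟨j, some i⟩) (E j).2) else 0) *
          (y ⟨j, none⟩ ^ ((E j).1 : ℕ) * ∏ i, y ⟨j, some i⟩ ^ (μ j (E j).2 i : ℕ))) =
        ∏ j, ∑ p : Fin (d + 1) × ι j, ((if e ⟨j, none⟩ = p.1 then
        MvPolynomial.aeval u (F j (fun i => e ⟨j, some i⟩) p.2) else 0) *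
          (y ⟨j, none⟩ ^ (p.1 : ℕ) * ∏ i, y ⟨j, some i⟩ ^ (μ j p.2 i : ℕ))) := by
      rw [Finset.prod_univ_sum, Fintype.piFinset_univ]
    rw [h3]
    have h4 : ∀ j, ∑ p : Fin (d + 1) × ι j, ((if e ⟨j, none⟩ = p.1 then
        MvPolynomial.aeval u (F j (fun i => e ⟨j, some i⟩) p.2) else 0) *
          (y ⟨j, none⟩ ^ (p.1 : ℕ) * ∏ i, y ⟨j, some i⟩ ^ (μ j p.2 i : ℕ))) =
        a j * (y ⟨j, none⟩ ^ (e ⟨j, none⟩ : ℕ) * ∏ i, y ⟨j, some i⟩ ^ (e ⟨j, some i⟩ : ℕ)) := by
      intro j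
      rw [Fintype.sum_prod_type, Finset.sum_eq_single (e ⟨j, none⟩)]
      · simp only [if_true]
        have h5 := hy j fun i => e ⟨j, some i⟩
        calc _ = y ⟨j, none⟩ ^ (e ⟨j, none⟩ : ℕ) * ∑ l, MvPolynomial.aeval u (F j (fun i => e ⟨j, some i⟩) l) *
              ∏ i, y ⟨j, some i⟩ ^ (μ j l i : ℕ) := by
                rw [Finset.mul_sum]
                refine Finset.sum_congr rfl fun l _ => ?_
                ring
          _ = _ := by rw [← h5]; ring
      · intro b _ hb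
        refine Finset.sum_eq_zero fun l _ => ?_
        rw [if_neg (Ne.symm hb), zero_mul]
      · intro h
        exact absurd (Finset.mem_univ _) h
    simp only [h4]
    rw [Finset.prod_mul_distrib (f := a)]
    ring
  simp only [h1]
  rw [Finset.sum_comm]
  refine Finset.sum_congr rfl fun E _ => ?_
  rw [AE, map_sum, vE, Finset.sum_mul]
  refine Finset.sum_congr rfl fun e _ => ?_
  rw [map_mul, map_prod, Finset.prod_mul_distrib, mul_assoc]
  congr 2
  refine Finset.prod_congr rfl fun j _ => ?_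
  split_ifs
  · rfl
  · rw [map_zero]

/-- bounds for the coefficients -/
theorem bound_AE (F : ∀ j, (Fin (r j) → Fin (d + 1)) → ι j → MvPolynomial τ ℤ) : ∃ (D : ℕ) (Λ : ℝ), 1 ≤ Λ ∧
    ∀ (Q : MvPolynomial ((Σ j : Fin k, Option (Fin (r j))) ⊕ τ) ℤ) (H : ℝ), (∀ e, |((Q.coeff e : ℤ) : ℝ)| ≤ H) →
    ∀ E, (AE Q F E).totalDegree ≤ D ∧ len (AE Q F E) ≤ Λ * H := by
  classical
  set D₁ : ℕ := ∑ j, ∑ s, ∑ l, (F j s l).totalDegree with hD₁
  set Λ₁ : ℝ := 1 + ∑ j, ∑ s, ∑ l, len (F j s l) with hΛ₁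
  have hD : ∀ j s l, (F j s l).totalDegree ≤ D₁ := by
    intro j s l
    refine le_trans ?_ (Finset.single_le_sum (f := fun j => ∑ s, ∑ l, (F j s l).totalDegree)
      (fun _ _ => Nat.zero_le _) (Finset.mem_univ j))
    refine le_trans ?_ (Finset.single_le_sum (f := fun s => ∑ l, (F j s l).totalDegree)
      (fun _ _ => Nat.zero_le _) (Finset.mem_univ s))
    exact Finset.single_le_sum (f := fun l => (F j s l).totalDegree) (fun _ _ => Nat.zero_le _) (Finset.mem_univ l)
  have hΛ : ∀ j s l, len (F j s l) ≤ Λ₁ := by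
    intro j s l
    have h1 : len (F j s l) ≤ ∑ j, ∑ s, ∑ l, len (F j s l) := by
      refine le_trans ?_ (Finset.single_le_sum (f := fun j => ∑ s, ∑ l, len (F j s l))
        (fun _ _ => Finset.sum_nonneg fun _ _ => Finset.sum_nonneg fun _ _ => len_nonneg _) (Finset.mem_univ j))
      refine le_trans ?_ (Finset.single_le_sum (f := fun s => ∑ l, len (F j s l))
        (fun _ _ => Finset.sum_nonneg fun _ _ => len_nonneg _) (Finset.mem_univ s))
      exact Finset.single_le_sum (f := fun l => len (F j s l)) (fun _ _ => len_nonneg _) (Finset.mem_univ l)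
    linarith
  have hΛ0 : 0 ≤ ∑ j, ∑ s, ∑ l, len (F j s l) :=
    Finset.sum_nonneg fun _ _ => Finset.sum_nonneg fun _ _ => Finset.sum_nonneg fun _ _ => len_nonneg _
  have hΛ1 : 1 ≤ Λ₁ := by linarith
  set N₁ : ℕ := Fintype.card ((Σ j : Fin k, Option (Fin (r j))) → Fin (d + 1)) with hN₁
  set N₂ : ℕ := Fintype.card (τ → Fin (d + 1)) with hN₂
  have hN₁1 : (1 : ℝ) ≤ N₁ := by exact_mod_cast Fintype.card_pos
  have hN₂1 : (1 : ℝ) ≤ N₂ := by exact_mod_cast Fintype.card_pos
  refine ⟨Fintype.card τ * d + k * D₁, N₁ * (N₂ * Λ₁ ^ k), ?_, fun Q H hH E => ⟨?_, ?_⟩⟩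
  · have h1 : 1 ≤ Λ₁ ^ k := one_le_pow₀ hΛ1
    nlinarith [mul_le_mul hN₂1 h1 zero_le_one (by linarith : (0 : ℝ) ≤ N₂)]
  · refine (MvPolynomial.totalDegree_finsetSum _ _).trans (Finset.sup_le fun e _ => ?_)
    refine (MvPolynomial.totalDegree_mul _ _).trans (add_le_add (deg_Qe Q e) ?_)
    refine (MvPolynomial.totalDegree_finsetProd _ _).trans ?_
    calc _ ≤ ∑ _j : Fin k, D₁ := by
          refine Finset.sum_le_sum fun j _ => ?_
          split_ifs
          · exact hD _ _ _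
          · simp
      _ = k * D₁ := by rw [Finset.sum_const, Finset.card_univ, Fintype.card_fin, smul_eq_mul]
  · have hH0 : 0 ≤ H := (abs_nonneg _).trans (hH 0)
    refine (len_sum _ _).trans ?_
    calc ∑ e : (Σ j : Fin k, Option (Fin (r j))) → Fin (d + 1), len (Qe d Q e * ∏ j, (if e ⟨j, none⟩ = (E j).1 then
          F j (fun i => e ⟨j, some i⟩) (E j).2 else 0))
        ≤ ∑ _e : (Σ j : Fin k, Option (Fin (r j))) → Fin (d + 1), (N₂ * H) * Λ₁ ^ k := by
          refine Finset.sum_le_sum fun e _ => (len_mul _ _).trans ?_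
          refine mul_le_mul (len_Qe Q H hH e) ?_ (len_nonneg _) (by positivity)
          refine (len_prod _ _).trans ?_
          calc _ ≤ ∏ _j : Fin k, Λ₁ := by
                refine Finset.prod_le_prod (fun _ _ => len_nonneg _) fun j _ => ?_
                split_ifs
                · exact hΛ _ _ _
                · rw [len_zero]
                  linarith
            _ = Λ₁ ^ k := by rw [Finset.prod_const, Finset.card_univ, Fintype.card_fin]
      _ = _ := by
          rw [Finset.sum_const, Finset.card_univ, nsmul_eq_mul]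
          ring

end

section shift

variable {g k d : ℕ} {r : Fin k → ℕ} {ι : Fin k → Type} [∀ j, Fintype (ι j)] [∀ j, DecidableEq (ι j)]

/-- the coefficients after a shift of the logarithms by `n_j Z_0` -/
noncomputable def Sh (n : Fin k → ℤ) (A : (∀ j, Fin (d + 1) × ι j) → MvPolynomial (Fin g ⊕ Fin k) ℤ)
    (F : ∀ j, Fin (d + 1) × ι j) : MvPolynomial (Fin (g + 1) ⊕ Fin k) ℤ :=
  ∑ E, MvPolynomial.rename (Sum.map Fin.succ id) (A E) * ∏ j, (if (E j).2 = (F j).2 then
    MvPolynomial.C (((E j).1 : ℕ).choose (F j).1 : ℤ) *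
      (MvPolynomial.C (n j) * MvPolynomial.X (Sum.inl 0)) ^ (((E j).1 : ℕ) - (F j).1) else 0)

/-- the shift of a point -/
def shp (n : Fin k → ℤ) (t : ℂ) (y : (Σ j : Fin k, Option (Fin (r j))) → ℂ) : (Σ j : Fin k, Option (Fin (r j))) → ℂ :=
  fun s => s.2.elim (y ⟨s.1, none⟩ + n s.1 * t) fun i => y ⟨s.1, some i⟩

lemma aeval_ren (A : MvPolynomial (Fin g ⊕ Fin k) ℤ) (t : ℂ) (ζ : Fin g → ℂ) (α : Fin k → ℂ) :
    MvPolynomial.aeval (Sum.elim (Fin.cons t ζ : Fin (g + 1) → ℂ) α) (MvPolynomial.rename (Sum.map Fin.succ id) A) =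
      MvPolynomial.aeval (Sum.elim ζ α) A := by
  rw [MvPolynomial.aeval_rename]
  congr 1
  congr 1
  funext s
  rcases s with s | s
  · simp
  · simp

theorem shift (μ : ∀ j, ι j → Fin (r j) → Fin (d + 1)) (n : Fin k → ℤ)
    (A : (∀ j, Fin (d + 1) × ι j) → MvPolynomial (Fin g ⊕ Fin k) ℤ) (t : ℂ) (ζ : Fin g → ℂ) (α : Fin k → ℂ)
    (y : (Σ j : Fin k, Option (Fin (r j))) → ℂ) :
    ∑ F, MvPolynomial.aeval (Sum.elim (Fin.cons t ζ : Fin (g + 1) → ℂ) α) (Sh n A F) * vE μ y F =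
      ∑ E, MvPolynomial.aeval (Sum.elim ζ α) (A E) * vE μ (shp n t y) E := by
  classical
  have h1 : ∀ F, MvPolynomial.aeval (Sum.elim (Fin.cons t ζ : Fin (g + 1) → ℂ) α) (Sh n A F) * vE μ y F =
      ∑ E : ((j : Fin k) → Fin (d + 1) × ι j), MvPolynomial.aeval (Sum.elim ζ α) (A E) * ∏ j, ((if (E j).2 = (F j).2 then
        ((((E j).1 : ℕ).choose (F j).1 : ℕ) : ℂ) * (n j * t) ^ (((E j).1 : ℕ) - (F j).1) else 0) *
        (y ⟨j, none⟩ ^ ((F j).1 : ℕ) * ∏ i, y ⟨j, some i⟩ ^ (μ j (F j).2 i : ℕ))) := by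
    intro F
    rw [Sh, map_sum, Finset.sum_mul]
    refine Finset.sum_congr rfl fun E _ => ?_
    rw [map_mul, aeval_ren, map_prod, vE, mul_assoc, ← Finset.prod_mul_distrib]
    congr 1
    refine Finset.prod_congr rfl fun j _ => ?_
    congr 1
    split_ifs
    · rw [map_mul, map_pow, map_mul, MvPolynomial.aeval_X, MvPolynomial.aeval_C, MvPolynomial.aeval_C]
      simp
    · rw [map_zero]
  simp only [h1]
  rw [Finset.sum_comm]
  refine Finset.sum_congr rfl fun E _ => ?_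
  rw [← Finset.mul_sum]
  congr 1
  have h2 : ∑ F : ((j : Fin k) → Fin (d + 1) × ι j), ∏ j, ((if (E j).2 = (F j).2 then
        ((((E j).1 : ℕ).choose (F j).1 : ℕ) : ℂ) * (n j * t) ^ (((E j).1 : ℕ) - (F j).1) else 0) *
        (y ⟨j, none⟩ ^ ((F j).1 : ℕ) * ∏ i, y ⟨j, some i⟩ ^ (μ j (F j).2 i : ℕ))) =
      ∏ j, ∑ p : Fin (d + 1) × ι j, ((if (E j).2 = p.2 then
        ((((E j).1 : ℕ).choose p.1 : ℕ) : ℂ) * (n j * t) ^ (((E j).1 : ℕ) - p.1) else 0) *
        (y ⟨j, none⟩ ^ (p.1 : ℕ) * ∏ i, y ⟨j, some i⟩ ^ (μ j p.2 i : ℕ))) := by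
    rw [Finset.prod_univ_sum, Fintype.piFinset_univ]
  rw [h2, vE]
  refine Finset.prod_congr rfl fun j _ => ?_
  rw [Fintype.sum_prod_type, Finset.sum_comm, Finset.sum_eq_single (E j).2]
  · simp only [if_true]
    have h3 : (shp n t y ⟨j, none⟩) ^ ((E j).1 : ℕ) = ∑ x : Fin (d + 1), ((((E j).1 : ℕ).choose x : ℕ) : ℂ) *
        (n j * t) ^ (((E j).1 : ℕ) - x) * y ⟨j, none⟩ ^ (x : ℕ) := by
      rw [Fin.sum_univ_eq_sum_range (fun x => ((((E j).1 : ℕ).choose x : ℕ) : ℂ) *
        (n j * t) ^ (((E j).1 : ℕ) - x) * y ⟨j, none⟩ ^ x) (d + 1)]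
      show (y ⟨j, none⟩ + n j * t) ^ ((E j).1 : ℕ) = _
      rw [add_pow]
      have h5 : Finset.range (((E j).1 : ℕ) + 1) ⊆ Finset.range (d + 1) :=
        Finset.range_subset_range.2 (by have := (E j).1.2; omega)
      rw [← Finset.sum_subset h5]
      · refine Finset.sum_congr rfl fun x _ => ?_
        ring
      · intro x _ hx
        rw [Finset.mem_range, not_lt] at hx
        rw [Nat.choose_eq_zero_of_lt (by omega)]
        simp
    have h4 : ∀ i, shp n t y ⟨j, some i⟩ = y ⟨j, some i⟩ := fun _ => rfl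
    simp only [h4]
    rw [h3, Finset.sum_mul]
    refine Finset.sum_congr rfl fun x _ => ?_
    ring
  · intro l _ hl
    refine Finset.sum_eq_zero fun x _ => ?_
    rw [if_neg (Ne.symm hl), zero_mul]
  · intro h
    exact absurd (Finset.mem_univ _) h

theorem bound_Sh (n : Fin k → ℤ) (N : ℝ) (hN : 1 ≤ N) (hn : ∀ j, |(n j : ℝ)| ≤ N)
    (A : (∀ j, Fin (d + 1) × ι j) → MvPolynomial (Fin g ⊕ Fin k) ℤ) (D : ℕ) (Λ : ℝ) (hΛ : 0 ≤ Λ)
    (hA : ∀ E, (A E).totalDegree ≤ D ∧ len (A E) ≤ Λ) (F : ∀ j, Fin (d + 1) × ι j) :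
    (Sh n A F).totalDegree ≤ D + k * d ∧
      len (Sh n A F) ≤ Fintype.card ((j : Fin k) → Fin (d + 1) × ι j) * (Λ * (2 ^ d * N ^ d) ^ k) := by
  classical
  have hren : ∀ P : MvPolynomial (Fin g ⊕ Fin k) ℤ, len (MvPolynomial.rename (Sum.map Fin.succ id) P :
      MvPolynomial (Fin (g + 1) ⊕ Fin k) ℤ) ≤ len P := by
    intro P
    conv_lhs => rw [P.as_sum, map_sum]
    refine (len_sum _ _).trans ?_
    rw [len]
    refine Finset.sum_le_sum fun e _ => ?_
    rw [MvPolynomial.rename_monomial, len_monomial]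
  refine ⟨?_, ?_⟩
  · refine (MvPolynomial.totalDegree_finsetSum _ _).trans (Finset.sup_le fun E _ => ?_)
    refine (MvPolynomial.totalDegree_mul _ _).trans (add_le_add ((MvPolynomial.totalDegree_rename_le _ _).trans (hA E).1) ?_)
    refine (MvPolynomial.totalDegree_finsetProd _ _).trans ?_
    calc _ ≤ ∑ _j : Fin k, d := by
          refine Finset.sum_le_sum fun j _ => ?_
          split_ifs
          · refine (MvPolynomial.totalDegree_mul _ _).trans ?_
            rw [MvPolynomial.totalDegree_C, zero_add]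
            refine (MvPolynomial.totalDegree_pow _ _).trans ?_
            have h1 : (MvPolynomial.C (n j) * MvPolynomial.X (Sum.inl 0) : MvPolynomial (Fin (g + 1) ⊕ Fin k) ℤ).totalDegree ≤ 1 := by
              refine (MvPolynomial.totalDegree_mul _ _).trans ?_
              rw [MvPolynomial.totalDegree_C, MvPolynomial.totalDegree_X, zero_add]
            calc _ ≤ (((E j).1 : ℕ) - (F j).1) * 1 := Nat.mul_le_mul_left _ h1
              _ ≤ d := by
                have := (E j).1.2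
                omega
          · simp
      _ = k * d := by rw [Finset.sum_const, Finset.card_univ, Fintype.card_fin, smul_eq_mul]
  · refine (len_sum _ _).trans ?_
    calc _ ≤ ∑ _E : ((j : Fin k) → Fin (d + 1) × ι j), Λ * (2 ^ d * N ^ d) ^ k := by
          refine Finset.sum_le_sum fun E _ => (len_mul _ _).trans ?_
          refine mul_le_mul ((hren _).trans (hA E).2) ?_ (len_nonneg _) hΛ
          refine (len_prod _ _).trans ?_
          calc _ ≤ ∏ _j : Fin k, (2 ^ d * N ^ d : ℝ) := by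
                refine Finset.prod_le_prod (fun _ _ => len_nonneg _) fun j _ => ?_
                split_ifs
                · refine (len_mul _ _).trans ?_
                  refine mul_le_mul ?_ ?_ (len_nonneg _) (by positivity)
                  · rw [len_C, Int.norm_eq_abs]
                    push_cast
                    rw [abs_of_nonneg (Nat.cast_nonneg _)]
                    have h1 : ((E j).1 : ℕ).choose (F j).1 ≤ 2 ^ ((E j).1 : ℕ) := Nat.choose_le_two_pow _ _
                    have h2 : 2 ^ ((E j).1 : ℕ) ≤ 2 ^ d := Nat.pow_le_pow_right (by norm_num) (by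
                      have := (E j).1.2
                      omega)
                    exact_mod_cast h1.trans h2
                  · refine (len_pow _ _).trans ?_
                    have h1 : len (MvPolynomial.C (n j) * MvPolynomial.X (Sum.inl 0) : MvPolynomial (Fin (g + 1) ⊕ Fin k) ℤ) ≤ N := by
                      refine (len_mul _ _).trans ?_
                      rw [len_C, len_X, mul_one, Int.norm_eq_abs]
                      exact hn j
                    calc _ ≤ N ^ (((E j).1 : ℕ) - (F j).1) := pow_le_pow_left₀ (len_nonneg _) h1 _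
                      _ ≤ N ^ d := pow_le_pow_right₀ hN (by
                        have := (E j).1.2
                        omega)
                · rw [len_zero]
                  positivity
            _ = _ := by rw [Finset.prod_const, Finset.card_univ, Fintype.card_fin]
      _ = _ := by rw [Finset.sum_const, Finset.card_univ, nsmul_eq_mul]

/-- the coefficients of highest degree in the logarithms do not change -/
theorem top_Sh (n : Fin k → ℤ) (A : (∀ j, Fin (d + 1) × ι j) → MvPolynomial (Fin g ⊕ Fin k) ℤ) (t : ℂ)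
    (ζ : Fin g → ℂ) (α : Fin k → ℂ) (hA : ∃ E, MvPolynomial.aeval (Sum.elim ζ α) (A E) ≠ 0) :
    ∃ F, MvPolynomial.aeval (Sum.elim ζ α) (A F) ≠ 0 ∧
      MvPolynomial.aeval (Sum.elim (Fin.cons t ζ : Fin (g + 1) → ℂ) α) (Sh n A F) = MvPolynomial.aeval (Sum.elim ζ α) (A F) := by
  classical
  obtain ⟨E₀, hE₀⟩ := hA
  obtain ⟨F, hF, hmax⟩ := Finset.exists_max_image
    (Finset.univ.filter fun E => MvPolynomial.aeval (Sum.elim ζ α) (A E) ≠ 0) (fun E => ∑ j, ((E j).1 : ℕ))
    ⟨E₀, Finset.mem_filter.2 ⟨Finset.mem_univ _, hE₀⟩⟩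
  have hF0 := (Finset.mem_filter.1 hF).2
  refine ⟨F, hF0, ?_⟩
  rw [Sh, map_sum, Finset.sum_eq_single F]
  · rw [map_mul, aeval_ren, map_prod]
    have h1 : ∀ j, (MvPolynomial.aeval (Sum.elim (Fin.cons t ζ : Fin (g + 1) → ℂ) α)) (if (F j).2 = (F j).2 then
        MvPolynomial.C (((F j).1 : ℕ).choose (F j).1 : ℤ) * (MvPolynomial.C (n j) * MvPolynomial.X (Sum.inl 0)) ^
          (((F j).1 : ℕ) - (F j).1) else 0 : MvPolynomial (Fin (g + 1) ⊕ Fin k) ℤ) = 1 := by
      intro j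
      rw [if_pos rfl, Nat.choose_self, Nat.sub_self, pow_zero]
      simp
    rw [Finset.prod_congr rfl fun j _ => h1 j, Finset.prod_const_one, mul_one]
  · intro E _ hE
    rw [map_mul, aeval_ren, map_prod]
    by_cases h0 : MvPolynomial.aeval (Sum.elim ζ α) (A E) = 0
    · rw [h0, zero_mul]
    · have h2 := hmax E (Finset.mem_filter.2 ⟨Finset.mem_univ _, h0⟩)
      obtain ⟨j, hj⟩ : ∃ j, ¬ ((E j).2 = (F j).2 ∧ ((F j).1 : ℕ) ≤ (E j).1) := by
        by_contra hcon
        push Not at hcon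
        apply hE
        have h3 : ∀ j, ((E j).1 : ℕ) = (F j).1 := by
          have h4 : ∑ j, ((F j).1 : ℕ) = ∑ j, ((E j).1 : ℕ) :=
            le_antisymm (Finset.sum_le_sum fun j _ => (hcon j).2) h2
          have h5 := (Finset.sum_eq_sum_iff_of_le (fun j _ => (hcon j).2)).1 h4
          exact fun j => (h5 j (Finset.mem_univ j)).symm
        funext j
        exact Prod.ext (Fin.ext (h3 j)) (hcon j).1
      rw [Finset.prod_eq_zero (Finset.mem_univ j), mul_zero]
      by_cases h3 : (E j).2 = (F j).2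
      · have h4 : ¬ ((F j).1 : ℕ) ≤ (E j).1 := fun h => hj ⟨h3, h⟩
        rw [if_pos h3, Nat.choose_eq_zero_of_lt (by omega)]
        simp
      · rw [if_neg h3, map_zero]
  · intro h
    exact absurd (Finset.mem_univ _) h

end shift

end Pool.Agent.Q189.MF
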