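import Pool.Agent.Q189.MF.FinD
import Pool.Agent.Q189.MF.ExpD
import Pool.Agent.Q246.LN.Tor

/-!
# Near relations between values of several families of G-functions, for almost all tuples

The proofs are those of `Pool.Agent.Q246.LN.Tor`, `Tor2` (helper246), with a family for each point.
-/

set_option autoImplicit false

open PowerSeries Module

namespace Pool.Agent.Q189.MF

open Pool.Agent.Y916.Af Pool.Agent.Y916.Al Pool.Agent.Y916.Sl Pool.Agent.Q246.NR Pool.Agent.Q246.NR2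
open Pool.Agent.Q246.LN (mb Ym basis win_fam WinL fib_rel aeval_refl liou)

variable {k : ℕ} {r : Fin k → ℕ}

/-- the point with the coordinates `ℓ_j` and `h_(j,i)(1 / α_j)` -/
noncomputable def ptD (h : ∀ j, Fin (r j) → ℚ⟦X⟧) (α ℓ : Fin k → ℂ) : (Σ j : Fin k, Option (Fin (r j))) → ℂ :=
  fun a => a.2.elim (ℓ a.1) fun i => evc (1 / α a.1) (h a.1 i)

/-- the product of the fibres -/
def FibD (h : ∀ j, Fin (r j) → ℚ⟦X⟧) (x : Fin k → ℂ) : Set ((Σ j : Fin k, Option (Fin (r j))) → ℂ) :=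
  {y | ∀ j, (fun i => y ⟨j, some i⟩) ∈ Vc (h j) (x j)}

/-- near relations at the point are near relations on the whole product of the fibres, and there is no near relation with
algebraic coefficients which does not vanish on the product of the fibres -/
def GdD {g : ℕ} (h : ∀ j, Fin (r j) → ℚ⟦X⟧) (d B : ℕ) (ζ : Fin g → ℂ) (α : Fin k → ℂ) (H : ℝ) : Prop :=
  ∀ ℓ : Fin k → ℂ, (∀ j, Complex.exp (ℓ j) = α j) → (∀ j, ‖ℓ j‖ ≤ H) →
    (∀ P : MvPolynomial ((Σ j : Fin k, Option (Fin (r j))) ⊕ Fin k) ℤ, P.totalDegree ≤ d → (∀ e, |((P.coeff e : ℤ) : ℝ)| ≤ H) →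
      (∃ y ∈ FibD h fun j => 1 / α j, MvPolynomial.aeval (Sum.elim y α) P ≠ 0) →
      1 ≤ H ^ B * ‖MvPolynomial.aeval (Sum.elim (ptD h α ℓ) α) P‖) ∧
    ∀ P : MvPolynomial ((Σ j : Fin k, Option (Fin (r j))) ⊕ (Fin g ⊕ Fin k)) ℤ, P.totalDegree ≤ d →
      (∀ e, |((P.coeff e : ℤ) : ℝ)| ≤ H) → ∀ y ∈ FibD h fun j => 1 / α j,
      ‖MvPolynomial.aeval (Sum.elim y (Sum.elim ζ α)) P‖ ≤
        (H * max 1 ‖y‖) ^ B * ‖MvPolynomial.aeval (Sum.elim (ptD h α ℓ) (Sum.elim ζ α)) P‖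

lemma GdD.mono {g : ℕ} {h : ∀ j, Fin (r j) → ℚ⟦X⟧} {d B : ℕ} {ζ : Fin g → ℂ} {α : Fin k → ℂ} {H H' : ℝ} (h1 : 1 ≤ H)
    (h2 : H ≤ H') (h3 : H' ≤ H ^ 2) (hg : GdD h d B ζ α H') : GdD h d (2 * B) ζ α H := by
  intro ℓ hℓ hℓH
  obtain ⟨g1, g2⟩ := hg ℓ hℓ fun j => (hℓH j).trans h2
  refine ⟨fun P hd hH hy => ?_, fun P hd hH y hy => ?_⟩
  · refine (g1 P hd (fun e => (hH e).trans h2) hy).trans ?_
    refine mul_le_mul_of_nonneg_right ?_ (norm_nonneg _)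
    rw [pow_mul]
    exact pow_le_pow_left₀ (by linarith) h3 _
  · refine (g2 P hd (fun e => (hH e).trans h2) y hy).trans ?_
    refine mul_le_mul_of_nonneg_right ?_ (norm_nonneg _)
    rw [pow_mul]
    have h4 : 1 ≤ max 1 ‖y‖ := le_max_left _ _
    refine pow_le_pow_left₀ (mul_nonneg (by linarith) (by positivity)) ?_ _
    calc H' * max 1 ‖y‖ ≤ H ^ 2 * max 1 ‖y‖ := mul_le_mul_of_nonneg_right h3 (by positivity)
      _ ≤ H ^ 2 * max 1 ‖y‖ ^ 2 := mul_le_mul_of_nonneg_left (le_self_pow₀ h4 (by norm_num)) (by positivity)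
      _ = _ := by ring

/-- no near relations, for polynomials -/
lemma of_not_rel {E : Fin k → Type} [∀ j, Fintype (E j)] {g D : ℕ} {Y : ∀ j, ℂ → E j → ℂ} {ζ : Fin g → ℂ} {α : Fin k → ℂ} {H : ℝ} {B₀ : ℕ} (hH : 1 ≤ H)
    (hn : ¬ RelD D (fun f : Fin g → Fin (D + 1) => ∏ s, ζ s ^ (f s : ℕ)) Y α H (H ^ B₀)⁻¹)
    (A : (∀ j, E j) → MvPolynomial (Fin g ⊕ Fin k) ℤ) (hA : ∀ e, (A e).totalDegree ≤ D ∧ len (A e) ≤ H) (e₀ : ∀ j, E j) :
    ‖MvPolynomial.aeval (Sum.elim ζ α) (A e₀)‖ ≤ H ^ B₀ *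
      ‖∑ e, MvPolynomial.aeval (Sum.elim ζ α) (A e) * ∏ j, Y j (α j) (e j)‖ := by
  classical
  by_contra hcon
  rw [not_le] at hcon
  apply hn
  have hHB : 0 < H ^ B₀ := by positivity
  have h1 : ∀ e, ∑ p : (Fin g → Fin (D + 1)) × (Fin k → Fin (D + 1)), ((∏ s, ζ s ^ (p.1 s : ℕ)) *
      ∏ j, α j ^ (p.2 j : ℕ)) * (((A e).coeff (tB (Sum.elim p.1 p.2)) : ℤ) : ℂ) = MvPolynomial.aeval (Sum.elim ζ α) (A e) := by
    intro e
    rw [eval_two (A e) (hA e).1, Fintype.sum_prod_type]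
    refine Finset.sum_congr rfl fun f _ => Finset.sum_congr rfl fun w _ => ?_
    ring
  refine ⟨fun e p => (A e).coeff (tB (Sum.elim p.1 p.2)), fun e p => ?_, e₀, ?_, ?_⟩
  · have h2 := norm_coeff_le_len (A e) (tB (Sum.elim p.1 p.2))
    rw [Int.norm_eq_abs] at h2
    exact h2.trans (hA e).2
  · rw [h1]
    intro h0
    rw [h0, norm_zero] at hcon
    have : 0 ≤ H ^ B₀ * ‖∑ e, MvPolynomial.aeval (Sum.elim ζ α) (A e) * ∏ j, Y j (α j) (e j)‖ := by positivity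
    linarith
  · simp only [h1]
    rw [inv_mul_eq_div, le_div_iff₀ hHB, mul_comm]
    exact hcon.le

lemma norm_vE {d R : ℕ} (hR : ∀ j, r j ≤ R) {ι : Fin k → Type} (μ : ∀ j, ι j → Fin (r j) → Fin (d + 1))
    (y : (Σ j : Fin k, Option (Fin (r j))) → ℂ) (M : ℝ) (hM : 1 ≤ M)
    (hy : ∀ s, ‖y s‖ ≤ M) (E : ∀ j, Fin (d + 1) × ι j) : ‖vE μ y E‖ ≤ M ^ (k * (d * (R + 1))) := by
  rw [vE, norm_prod]
  have h1 : ∀ j, ‖y ⟨j, none⟩ ^ ((E j).1 : ℕ) * ∏ i, y ⟨j, some i⟩ ^ (μ j (E j).2 i : ℕ)‖ ≤ M ^ (d * (R + 1)) := by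
    intro j
    rw [norm_mul, norm_pow, norm_prod]
    have h2 : ‖y ⟨j, none⟩‖ ^ ((E j).1 : ℕ) ≤ M ^ d :=
      (pow_le_pow_left₀ (norm_nonneg _) (hy _) _).trans (pow_le_pow_right₀ hM (by
        have := (E j).1.2
        omega))
    have h3 : ∏ i, ‖y ⟨j, some i⟩ ^ (μ j (E j).2 i : ℕ)‖ ≤ (M ^ d) ^ R := by
      calc _ ≤ ∏ _i : Fin (r j), M ^ d := by
            refine Finset.prod_le_prod (fun _ _ => norm_nonneg _) fun i _ => ?_
            rw [norm_pow]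
            exact (pow_le_pow_left₀ (norm_nonneg _) (hy _) _).trans (pow_le_pow_right₀ hM (by
              have := (μ j (E j).2 i).2
              omega))
        _ = (M ^ d) ^ r j := by rw [Finset.prod_const, Finset.card_univ, Fintype.card_fin]
        _ ≤ _ := pow_le_pow_right₀ (one_le_pow₀ hM) (hR j)
    calc _ ≤ M ^ d * (M ^ d) ^ R := mul_le_mul h2 h3 (Finset.prod_nonneg fun _ _ => norm_nonneg _) (by positivity)
      _ = M ^ (d * (R + 1)) := by rw [← pow_succ', ← pow_mul]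
  calc _ ≤ ∏ _j : Fin k, M ^ (d * (R + 1)) := Finset.prod_le_prod (fun _ _ => norm_nonneg _) fun j _ => h1 j
    _ = _ := by rw [Finset.prod_const, Finset.card_univ, Fintype.card_fin, ← pow_mul, mul_comm]

lemma vE_pt {h : ∀ j, Fin (r j) → ℚ⟦X⟧} {d : ℕ} {ι : ∀ j, Finset (Fin (r j) → Fin (d + 1))} (α : Fin k → ℂ)
    (E : ∀ j, Fin (d + 1) × ι j) :
    vE (fun j (l : ι j) => (l : Fin (r j) → Fin (d + 1))) (ptD h α fun j => Complex.log (α j)) E =
      ∏ j, Ym (h j) Complex.log (fun l : ι j => mb d l) d (α j) (E j) := by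
  rw [vE]
  refine Finset.prod_congr rfl fun j _ => ?_
  rw [Ym, Finsupp.prod_fintype _ _ (fun _ => pow_zero _)]
  rfl

theorem hbad_famD {h : ∀ j, Fin (r j) → ℚ⟦X⟧}
    (hsize : ∀ j, ∃ C : ℝ, ∀ i m, |((coeff m (h j i) : ℚ) : ℝ)| ≤ C ^ (m + 1))
    (g m d : ℕ) {ι : ∀ j, Finset (Fin (r j) → Fin (d + 1))} {c : Fin k → Polynomial ℤ}
    {cc : ∀ j, (Fin (r j) → Fin (d + 1)) → ι j → Polynomial ℤ} (hc0 : ∀ j, c j ≠ 0)
    (hrel : ∀ j s, MvPolynomial.aeval (h j) (MvPolynomial.C ((c j).map (Int.castRingHom ℚ)) *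
      MvPolynomial.monomial (mb d s) 1 -
      ∑ i : ι j, MvPolynomial.C ((cc j s i).map (Int.castRingHom ℚ)) *
        MvPolynomial.monomial (mb d (i : Fin (r j) → Fin (d + 1))) (1 : Polynomial ℚ)) = 0) :
    ∃ D R₀ : ℕ, ∀ B₀ : ℕ, ∃ B : ℕ, ∀ T : ℕ, 1 ≤ T → ∃ H₀ : ℝ, ∀ (ζ : Fin g → ℂ) (x : Fin k → ℂ) (H : ℝ), H₀ ≤ H →
      (∀ j, AInt m T (x j)) → (∀ j, (R₀ : ℝ) < ‖x j‖) → ¬ GdD h d B ζ x H →
      RelD D (fun f : Fin (g + 1) → Fin (D + 1) =>
        ∏ s, (Fin.cons (2 * Real.pi * Complex.I) ζ : Fin (g + 1) → ℂ) s ^ (f s : ℕ))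
        (fun j => Ym (h j) Complex.log (fun l : ι j => mb d l) d) x (H ^ (2 + k * d)) ((H ^ (2 + k * d)) ^ B₀)⁻¹ := by
  classical
  choose R₁' hR₁1' hR₁' using fun j => val_memC (hsize j)
  choose R₂' hR₂1' hR₂' using fun j => large_ne (c := (c j).map (Int.castRingHom ℚ))
    ((Polynomial.map_ne_zero_iff (RingHom.injective_int _)).2 (hc0 j))
  obtain ⟨R₁, hR₁⟩ : ∃ R₁ : ℕ, ∀ j, R₁' j ≤ R₁ :=
    ⟨∑ j, R₁' j, fun j => Finset.single_le_sum (f := R₁') (fun _ _ => Nat.zero_le _) (Finset.mem_univ j)⟩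
  obtain ⟨R₂, hR₂⟩ : ∃ R₂ : ℕ, ∀ j, R₂' j ≤ R₂ :=
    ⟨∑ j, R₂' j, fun j => Finset.single_le_sum (f := R₂') (fun _ _ => Nat.zero_le _) (Finset.mem_univ j)⟩
  obtain ⟨rR, hrR⟩ : ∃ rR : ℕ, ∀ j, r j ≤ rR :=
    ⟨∑ j, r j, fun j => Finset.single_le_sum (f := r) (fun _ _ => Nat.zero_le _) (Finset.mem_univ j)⟩
  -- the degrees
  obtain ⟨N, hN, hN'⟩ : ∃ N : ℕ, (∀ j, (c j).natDegree ≤ N) ∧ ∀ j s i, (cc j s i).natDegree ≤ N := by
    have h0 : ∀ j, ∃ N : ℕ, (c j).natDegree ≤ N ∧ ∀ s i, (cc j s i).natDegree ≤ N := by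
      intro j
      refine ⟨(c j).natDegree + ∑ s, ∑ i, (cc j s i).natDegree, by omega, fun s i => ?_⟩
      have h1 : (cc j s i).natDegree ≤ ∑ i, (cc j s i).natDegree :=
        Finset.single_le_sum (f := fun i => (cc j s i).natDegree) (fun _ _ => Nat.zero_le _) (Finset.mem_univ i)
      have h2 : ∑ i, (cc j s i).natDegree ≤ ∑ s, ∑ i, (cc j s i).natDegree :=
        Finset.single_le_sum (f := fun s => ∑ i, (cc j s i).natDegree) (fun _ _ => Nat.zero_le _) (Finset.mem_univ s)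
      omega
    choose N h1 h2 using h0
    have h3 : ∀ j, N j ≤ ∑ j, N j := fun j =>
      Finset.single_le_sum (f := N) (fun _ _ => Nat.zero_le _) (Finset.mem_univ j)
    exact ⟨∑ j, N j, fun j => (h1 j).trans (h3 j), fun j s i => (h2 j s i).trans (h3 j)⟩
  set μ : ∀ j, ι j → Fin (r j) → Fin (d + 1) := fun j l => (l : Fin (r j) → Fin (d + 1)) with hμ
  -- the two expansions
  set F₁ : ∀ j, (Fin (r j) → Fin (d + 1)) → ι j → MvPolynomial (Fin g ⊕ Fin k) ℤ := fun j s l =>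
    Polynomial.aeval (MvPolynomial.X (Sum.inr j)) (Polynomial.reflect N (cc j s l)) with hF₁
  set F₂ : ∀ j, (Fin (r j) → Fin (d + 1)) → ι j → MvPolynomial (Fin k) ℤ := fun j s l =>
    Polynomial.aeval (MvPolynomial.X j) (Polynomial.reflect N (cc j s l)) with hF₂
  obtain ⟨D₁, Λ₁, hΛ₁, hb₁⟩ := bound_AE (d := d) F₁
  obtain ⟨D₂, Λ₂, hΛ₂, hb₂⟩ := bound_AE (d := d) F₂
  set D₃ : ℕ := max D₁ D₂ with hD₃
  set Λ : ℝ := max Λ₁ Λ₂ with hΛ
  have hΛ1 : 1 ≤ Λ := hΛ₁.trans (le_max_left _ _)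
  set nE : ℕ := Fintype.card ((j : Fin k) → Fin (d + 1) × ι j) with hnE
  refine ⟨D₃ + k * d, max R₁ R₂ + 1, fun B₀ => ⟨(2 + k * d) * B₀ + 2 * (k * (d * (rR + 1))) + 2 * m ^ k + 2,
    fun T hT => ?_⟩⟩
  set e₀ : ℕ := 2 + k * d with he₀
  set B : ℕ := e₀ * B₀ + 2 * (k * (d * (rR + 1))) + 2 * m ^ k + 2 with hB
  have hTR : (1 : ℝ) ≤ T := by exact_mod_cast hT
  -- the bound of the denominators
  obtain ⟨Λc, hΛc⟩ : ∃ Λc : ℝ, ∀ j, ∀ z : ℂ, ‖z‖ ≤ T → ‖Polynomial.aeval z (Polynomial.reflect N (c j))‖ ≤ Λc := by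
    have h0 : ∀ j, ∃ Λc : ℝ, ∀ z : ℂ, ‖z‖ ≤ T → ‖Polynomial.aeval z (Polynomial.reflect N (c j))‖ ≤ Λc := by
      intro j
      have hcont : Continuous fun z : ℂ => ‖Polynomial.aeval z (Polynomial.reflect N (c j))‖ :=
        (Polynomial.continuous_aeval _).norm
      obtain ⟨Λc, hΛc⟩ := (isCompact_closedBall (0 : ℂ) T).bddAbove_image hcont.continuousOn
      refine ⟨Λc, fun z hz => hΛc ⟨z, ?_, rfl⟩⟩
      rw [mem_closedBall_zero_iff]
      exact hz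
    choose Λc hΛc using h0
    refine ⟨∑ j, |Λc j|, fun j z hz => (hΛc j z hz).trans ((le_abs_self _).trans ?_)⟩
    exact Finset.single_le_sum (f := fun j => |Λc j|) (fun _ _ => abs_nonneg _) (Finset.mem_univ j)
  set Λc' : ℝ := max 1 Λc with hΛc'
  have hΛc1 : 1 ≤ Λc' := le_max_left _ _
  refine ⟨max (max 9 (Real.log T + 4)) (max (max (nE : ℝ) (nE * (Λ * (2 ^ d) ^ k))) (max (Λ * (T : ℝ) ^ D₃) (Λc' ^ k))),
    fun ζ α H hH hα hαR hbad => ?_⟩
  have hH8 : 9 ≤ H := (le_max_left _ _).trans ((le_max_left _ _).trans hH)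
  have hHlog : Real.log T + 4 ≤ H := (le_max_right _ _).trans ((le_max_left _ _).trans hH)
  have hHn : (nE : ℝ) ≤ H := (le_max_left _ _).trans ((le_max_left _ _).trans ((le_max_right _ _).trans hH))
  have hHn2 : nE * (Λ * (2 ^ d) ^ k) ≤ H := (le_max_right _ _).trans ((le_max_left _ _).trans ((le_max_right _ _).trans hH))
  have hHT : Λ * (T : ℝ) ^ D₃ ≤ H := (le_max_left _ _).trans ((le_max_right _ _).trans ((le_max_right _ _).trans hH))
  have hHc : Λc' ^ k ≤ H := (le_max_right _ _).trans ((le_max_right _ _).trans ((le_max_right _ _).trans hH))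
  have hH1 : 1 ≤ H := by linarith
  have hHp : 0 < H := by linarith
  by_contra hrelT
  apply hbad
  clear hbad
  -- the points
  have hαT : ∀ j, ‖α j‖ ≤ T := by
    intro j
    obtain ⟨f, -, -, h3, h4⟩ := hα j
    exact h4 _ h3
  have hα1 : ∀ j, 1 ≤ ‖α j‖ := by
    intro j
    have h1 := (hαR j).le
    push_cast at h1
    have h2 : (0 : ℝ) ≤ max (R₁ : ℝ) R₂ := (Nat.cast_nonneg R₁).trans (le_max_left _ _)
    linarith
  have hα0 : ∀ j, α j ≠ 0 := fun j => norm_pos_iff.1 (lt_of_lt_of_le one_pos (hα1 j))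
  have hαR₁ : ∀ j, (R₁ : ℝ) < ‖α j‖ := by
    intro j
    have h1 := hαR j
    push_cast at h1
    have h2 : (R₁ : ℝ) ≤ max (R₁ : ℝ) R₂ := le_max_left _ _
    linarith
  have hαR₂ : ∀ j, (R₂ : ℝ) < ‖α j‖ := by
    intro j
    have h1 := hαR j
    push_cast at h1
    have h2 : (R₂ : ℝ) ≤ max (R₁ : ℝ) R₂ := le_max_right _ _
    linarith
  -- the denominators
  set a : Fin k → ℂ := fun j => Polynomial.aeval (α j) (Polynomial.reflect N (c j)) with ha
  have ha0 : ∀ j, a j ≠ 0 := by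
    intro j
    have h1 := hR₂' j (α j) (lt_of_le_of_lt (by exact_mod_cast hR₂ j) (hαR₂ j))
    have h2 : Polynomial.aeval (1 / α j) ((c j).map (Int.castRingHom ℚ)) = Polynomial.aeval (1 / α j) (c j) :=
      Polynomial.aeval_map_algebraMap ℚ (1 / α j) (c j)
    rw [h2] at h1
    rw [ha]
    beta_reduce
    rw [aeval_refl (c j) N (hN j) _ (hα0 j)]
    exact mul_ne_zero (pow_ne_zero _ (hα0 j)) h1
  have hpa0 : ∏ j, a j ≠ 0 := Finset.prod_ne_zero_iff.2 fun j _ => ha0 j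
  have hpan : 0 < ‖∏ j, a j‖ := norm_pos_iff.2 hpa0
  have hpaH : ‖∏ j, a j‖ ≤ H := by
    refine le_trans ?_ hHc
    rw [norm_prod]
    calc ∏ j, ‖a j‖ ≤ ∏ _j : Fin k, Λc' :=
          Finset.prod_le_prod (fun _ _ => norm_nonneg _) fun j _ => (hΛc j _ (hαT j)).trans (le_max_right _ _)
      _ = Λc' ^ k := by rw [Finset.prod_const, Finset.card_univ, Fintype.card_fin]
  -- the relations on the fibres
  have hfib₁ : ∀ y ∈ FibD h (fun j => 1 / α j), ∀ (j : Fin k) (s : Fin (r j) → Fin (d + 1)),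
      a j * ∏ i, y ⟨j, some i⟩ ^ (s i : ℕ) =
        ∑ l, MvPolynomial.aeval (Sum.elim ζ α) (F₁ j s l) * ∏ i, y ⟨j, some i⟩ ^ (μ j l i : ℕ) := by
    intro y hy j s
    have h1 := fib_rel (hrel j) N (hN j) (hN' j) (α j) (hα0 j) _ (hy j) s
    rw [ha]
    refine h1.trans (Finset.sum_congr rfl fun l _ => ?_)
    congr 1
    rw [hF₁]
    beta_reduce
    rw [← Polynomial.aeval_algHom_apply, MvPolynomial.aeval_X]
    rfl
  have hfib₂ : ∀ y ∈ FibD h (fun j => 1 / α j), ∀ (j : Fin k) (s : Fin (r j) → Fin (d + 1)),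
      a j * ∏ i, y ⟨j, some i⟩ ^ (s i : ℕ) =
        ∑ l, MvPolynomial.aeval α (F₂ j s l) * ∏ i, y ⟨j, some i⟩ ^ (μ j l i : ℕ) := by
    intro y hy j s
    have h1 := fib_rel (hrel j) N (hN j) (hN' j) (α j) (hα0 j) _ (hy j) s
    rw [ha]
    refine h1.trans (Finset.sum_congr rfl fun l _ => ?_)
    congr 1
    rw [hF₂]
    beta_reduce
    rw [← Polynomial.aeval_algHom_apply, MvPolynomial.aeval_X]
  intro ℓ hℓ hℓH
  -- the determinations of the logarithms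
  have hn : ∀ j, ∃ n : ℤ, ℓ j = Complex.log (α j) + n * (2 * Real.pi * Complex.I) := by
    intro j
    refine Complex.exp_eq_exp_iff_exists_int.1 ?_
    rw [hℓ j, Complex.exp_log (hα0 j)]
  choose n hn using hn
  set t : ℂ := 2 * Real.pi * Complex.I with ht
  have htn : ‖t‖ = 2 * Real.pi := by
    rw [ht]
    simp [abs_of_pos Real.pi_pos]
  have hpi3 : 3 < Real.pi := Real.pi_gt_three
  have hpi4 : Real.pi < 4 := by linarith [Real.pi_lt_four]
  have hnH : ∀ j, |(n j : ℝ)| ≤ H := by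
    intro j
    have h1 : (n j : ℂ) * t = ℓ j - Complex.log (α j) := by rw [hn j]; ring
    have h2 : |(n j : ℝ)| * (2 * Real.pi) = ‖ℓ j - Complex.log (α j)‖ := by
      rw [← h1, norm_mul, htn, Complex.norm_intCast]
    have h3 : ‖Complex.log (α j)‖ ≤ Real.log T + 4 := by
      refine (Complex.norm_le_abs_re_add_abs_im _).trans ?_
      rw [Complex.log_re, Complex.log_im]
      have h4 : |Real.log ‖α j‖| ≤ Real.log T := by
        rw [abs_of_nonneg (Real.log_nonneg (hα1 j))]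
        exact Real.log_le_log (by linarith [hα1 j]) (hαT j)
      have h5 := Complex.abs_arg_le_pi (α j)
      linarith
    have h4 : |(n j : ℝ)| * (2 * Real.pi) ≤ H + H := by
      rw [h2]
      refine (norm_sub_le _ _).trans (add_le_add (hℓH j) (h3.trans hHlog))
    have h5 : 0 ≤ |(n j : ℝ)| := abs_nonneg _
    nlinarith
  set pt₀ : (Σ j : Fin k, Option (Fin (r j))) → ℂ := ptD h α fun j => Complex.log (α j) with hpt₀
  have hpt : shp n t pt₀ = ptD h α ℓ := by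
    funext s
    rcases s with ⟨j, i⟩
    cases i with
    | none =>
      show Complex.log (α j) + n j * t = ℓ j
      rw [hn j]
    | some i => rfl
  have hptF : ptD h α ℓ ∈ FibD h fun j => 1 / α j := fun j =>
    hR₁' j (α j) (lt_of_le_of_lt (by exact_mod_cast hR₁ j) (hαR₁ j))
  -- the absence of near relations
  have key : ∀ A : ((j : Fin k) → Fin (d + 1) × ι j) → MvPolynomial (Fin g ⊕ Fin k) ℤ,
      (∀ E, (A E).totalDegree ≤ D₃ ∧ len (A E) ≤ Λ * H) → ∀ E₀,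
      ‖MvPolynomial.aeval (Sum.elim (Fin.cons t ζ : Fin (g + 1) → ℂ) α) (Sh n A E₀)‖ ≤ H ^ (e₀ * B₀) *
        ‖∑ E, MvPolynomial.aeval (Sum.elim ζ α) (A E) * vE μ (ptD h α ℓ) E‖ := by
    intro A hA E₀
    have h1 := of_not_rel (D := D₃ + k * d) (one_le_pow₀ hH1) hrelT (fun E => Sh n A E) (fun E => by
      obtain ⟨h2, h3⟩ := bound_Sh n H hH1 hnH A D₃ (Λ * H) (by positivity) hA E
      refine ⟨h2, h3.trans ?_⟩
      calc (nE : ℝ) * (Λ * H * (2 ^ d * H ^ d) ^ k) = (nE * (Λ * (2 ^ d) ^ k)) * (H * H ^ (k * d)) := by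
            rw [mul_pow, ← pow_mul, mul_comm d k]
            ring
        _ ≤ H * (H * H ^ (k * d)) := mul_le_mul_of_nonneg_right hHn2 (by positivity)
        _ = H ^ e₀ := by
            rw [he₀]
            ring) E₀
    rw [← pow_mul] at h1
    refine h1.trans (mul_le_mul_of_nonneg_left (le_of_eq ?_) (by positivity))
    rw [← hpt, ← shift μ n A t ζ α pt₀]
    congr 1
    refine Finset.sum_congr rfl fun E _ => ?_
    rw [hpt₀, hμ, vE_pt]
  refine ⟨fun P hPd hPH hex => ?_, fun P hPd hPH y hy => ?_⟩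
  · -- the absolute inequality
    obtain ⟨y, hy, hPy⟩ := hex
    set A₂ := AE P F₂ with hA₂
    have hbA := fun E => hb₂ P H hPH E
    set A : ((j : Fin k) → Fin (d + 1) × ι j) → MvPolynomial (Fin g ⊕ Fin k) ℤ := fun E =>
      MvPolynomial.rename Sum.inr (A₂ E) with hA
    have hev : ∀ E, MvPolynomial.aeval (Sum.elim ζ α) (A E) = MvPolynomial.aeval α (A₂ E) := by
      intro E
      rw [hA]
      beta_reduce
      rw [MvPolynomial.aeval_rename]
      rfl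
    have hlen : ∀ E, (A E).totalDegree ≤ D₃ ∧ len (A E) ≤ Λ * H := by
      intro E
      refine ⟨(MvPolynomial.totalDegree_rename_le _ _).trans ((hbA E).1.trans (le_max_right _ _)), ?_⟩
      have h1 : len (A E) ≤ len (A₂ E) := by
        rw [hA]
        beta_reduce
        conv_lhs => rw [(A₂ E).as_sum, map_sum]
        refine (len_sum _ _).trans ?_
        rw [len]
        refine Finset.sum_le_sum fun e _ => ?_
        rw [MvPolynomial.rename_monomial, len_monomial]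
      exact h1.trans ((hbA E).2.trans (mul_le_mul_of_nonneg_right (le_max_right _ _) hHp.le))
    have h1 := expand μ F₂ P hPd α a y (hfib₂ y hy)
    have hne : ∃ E, MvPolynomial.aeval (Sum.elim ζ α) (A E) ≠ 0 := by
      by_contra hcon
      push Not at hcon
      have h2 : (∏ j, a j) * MvPolynomial.aeval (Sum.elim y α) P = 0 := by
        rw [h1]
        refine Finset.sum_eq_zero fun E _ => ?_
        rw [← hev, hcon E, zero_mul]
      exact hPy ((mul_eq_zero.1 h2).resolve_left hpa0)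
    obtain ⟨E₀, hE₀, htop⟩ := top_Sh n A t ζ α hne
    have h2 := key A hlen E₀
    rw [htop] at h2
    have h3 := expand μ F₂ P hPd α a _ (hfib₂ _ hptF)
    have h4 : ∑ E, MvPolynomial.aeval (Sum.elim ζ α) (A E) * vE μ (ptD h α ℓ) E =
        (∏ j, a j) * MvPolynomial.aeval (Sum.elim (ptD h α ℓ) α) P := by
      rw [h3]
      exact Finset.sum_congr rfl fun E _ => by rw [hev]
    rw [h4, norm_mul] at h2
    rw [hev] at h2 hE₀
    have h5 := liou m α T hTR hα (A₂ E₀) (D := D₃) ((hbA E₀).1.trans (le_max_right _ _)) (Λ * H) (by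
      calc (1 : ℝ) = 1 * 1 := by norm_num
        _ ≤ Λ * H := mul_le_mul hΛ1 hH1 zero_le_one (by linarith))
      ((hbA E₀).2.trans (mul_le_mul_of_nonneg_right (le_max_right _ _) hHp.le)) hE₀
    have h6 : (Λ * H * (T : ℝ) ^ D₃) ^ m ^ k ≤ H ^ (2 * m ^ k) := by
      rw [pow_mul]
      refine pow_le_pow_left₀ (by positivity) ?_ _
      calc Λ * H * (T : ℝ) ^ D₃ = (Λ * (T : ℝ) ^ D₃) * H := by ring
        _ ≤ H * H := mul_le_mul_of_nonneg_right hHT hHp.le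
        _ = H ^ 2 := by ring
    calc (1 : ℝ) ≤ (Λ * H * (T : ℝ) ^ D₃) ^ m ^ k * ‖MvPolynomial.aeval α (A₂ E₀)‖ := h5
      _ ≤ H ^ (2 * m ^ k) * (H ^ (e₀ * B₀) * (‖∏ j, a j‖ * ‖MvPolynomial.aeval (Sum.elim (ptD h α ℓ) α) P‖)) :=
          mul_le_mul h6 h2 (norm_nonneg _) (by positivity)
      _ ≤ H ^ (2 * m ^ k) * (H ^ (e₀ * B₀) * (H * ‖MvPolynomial.aeval (Sum.elim (ptD h α ℓ) α) P‖)) :=
          mul_le_mul_of_nonneg_left (mul_le_mul_of_nonneg_left (mul_le_mul_of_nonneg_right hpaH (norm_nonneg _))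
            (by positivity)) (by positivity)
      _ = H ^ (2 * m ^ k + e₀ * B₀ + 1) * ‖MvPolynomial.aeval (Sum.elim (ptD h α ℓ) α) P‖ := by
          rw [pow_succ, pow_add]
          ring
      _ ≤ H ^ B * ‖MvPolynomial.aeval (Sum.elim (ptD h α ℓ) α) P‖ :=
          mul_le_mul_of_nonneg_right (pow_le_pow_right₀ hH1 (by omega)) (norm_nonneg _)
  · -- the relative inequality
    set A := AE P F₁ with hA
    have hlen : ∀ E, (A E).totalDegree ≤ D₃ ∧ len (A E) ≤ Λ * H := by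
      intro E
      obtain ⟨h1, h2⟩ := hb₁ P H hPH E
      exact ⟨h1.trans (le_max_left _ _), h2.trans (mul_le_mul_of_nonneg_right (le_max_left _ _) hHp.le)⟩
    have hpt1 := expand μ F₁ P hPd (Sum.elim ζ α) a _ (hfib₁ _ hptF)
    have hy1 := expand μ F₁ P hPd (Sum.elim ζ α) a y (hfib₁ y hy)
    set Y : ℝ := max 1 ‖y‖ with hY
    have hY1 : 1 ≤ Y := le_max_left _ _
    set y' : (Σ j : Fin k, Option (Fin (r j))) → ℂ := shp (fun j => - n j) t y with hy'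
    have hyy : shp n t y' = y := by
      funext s
      rcases s with ⟨j, i⟩
      cases i with
      | none =>
        show (y ⟨j, none⟩ + ((- n j : ℤ) : ℂ) * t) + n j * t = y ⟨j, none⟩
        push_cast
        ring
      | some i => rfl
    have hy'n : ∀ s, ‖y' s‖ ≤ (H * Y) ^ 2 := by
      intro s
      have hbig : Y + H * 8 ≤ (H * Y) ^ 2 := by
        have h1 : Y ≤ H * Y := le_mul_of_one_le_left (by linarith) hH1
        have h2 : H ≤ H * Y := le_mul_of_one_le_right hHp.le hY1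
        have h3 : 9 ≤ H * Y := hH8.trans h2
        nlinarith
      rcases s with ⟨j, i⟩
      cases i with
      | none =>
        show ‖y ⟨j, none⟩ + ((- n j : ℤ) : ℂ) * t‖ ≤ _
        refine le_trans ?_ hbig
        refine (norm_add_le _ _).trans (add_le_add ((norm_le_pi_norm y _).trans (le_max_right _ _)) ?_)
        rw [norm_mul, htn, Complex.norm_intCast]
        push_cast
        rw [abs_neg]
        exact mul_le_mul (hnH j) (by linarith) (by positivity) hHp.le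
      | some i =>
        show ‖y ⟨j, some i⟩‖ ≤ _
        refine le_trans ?_ hbig
        have h5 : ‖y ⟨j, some i⟩‖ ≤ Y := (norm_le_pi_norm y _).trans (le_max_right _ _)
        linarith
    have hHY1 : 1 ≤ H * Y := by
      calc (1 : ℝ) = 1 * 1 := by norm_num
        _ ≤ H * Y := mul_le_mul hH1 hY1 zero_le_one hHp.le
    have h1 : ‖∏ j, a j‖ * ‖MvPolynomial.aeval (Sum.elim y (Sum.elim ζ α)) P‖ ≤
        nE * ((H ^ (e₀ * B₀) * (‖∏ j, a j‖ * ‖MvPolynomial.aeval (Sum.elim (ptD h α ℓ) (Sum.elim ζ α)) P‖)) *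
          ((H * Y) ^ 2) ^ (k * (d * (rR + 1)))) := by
      rw [← norm_mul, ← norm_mul, hy1, hpt1]
      have h2 := shift μ n A t ζ α y'
      rw [hyy] at h2
      rw [← h2]
      refine (norm_sum_le _ _).trans ?_
      calc _ ≤ ∑ _E : ((j : Fin k) → Fin (d + 1) × ι j), (H ^ (e₀ * B₀) *
            ‖∑ E, MvPolynomial.aeval (Sum.elim ζ α) (A E) * vE μ (ptD h α ℓ) E‖) * ((H * Y) ^ 2) ^ (k * (d * (rR + 1))) := by
            refine Finset.sum_le_sum fun E _ => ?_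
            rw [norm_mul]
            exact mul_le_mul (key A hlen E) (norm_vE hrR μ y' _ (one_le_pow₀ hHY1) hy'n E) (norm_nonneg _) (by positivity)
        _ = _ := by rw [Finset.sum_const, Finset.card_univ, nsmul_eq_mul]
    have h2 : ‖MvPolynomial.aeval (Sum.elim y (Sum.elim ζ α)) P‖ ≤
        nE * ((H ^ (e₀ * B₀) * ‖MvPolynomial.aeval (Sum.elim (ptD h α ℓ) (Sum.elim ζ α)) P‖) *
          ((H * Y) ^ 2) ^ (k * (d * (rR + 1)))) := by
      refine le_of_mul_le_mul_left (h1.trans (le_of_eq ?_)) hpan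
      ring
    refine h2.trans ?_
    have h3 : (nE : ℝ) ≤ H * Y := hHn.trans (le_mul_of_one_le_right hHp.le hY1)
    have h4 : H ^ (e₀ * B₀) ≤ (H * Y) ^ (e₀ * B₀) :=
      pow_le_pow_left₀ hHp.le (le_mul_of_one_le_right hHp.le hY1) _
    calc nE * ((H ^ (e₀ * B₀) * ‖MvPolynomial.aeval (Sum.elim (ptD h α ℓ) (Sum.elim ζ α)) P‖) *
          ((H * Y) ^ 2) ^ (k * (d * (rR + 1))))
        ≤ (H * Y) * (((H * Y) ^ (e₀ * B₀) * ‖MvPolynomial.aeval (Sum.elim (ptD h α ℓ) (Sum.elim ζ α)) P‖) *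
          ((H * Y) ^ 2) ^ (k * (d * (rR + 1)))) := by
          refine mul_le_mul h3 ?_ (by positivity) (by positivity)
          exact mul_le_mul_of_nonneg_right (mul_le_mul_of_nonneg_right h4 (norm_nonneg _)) (by positivity)
      _ = (H * Y) ^ (e₀ * B₀ + 2 * (k * (d * (rR + 1))) + 1) *
          ‖MvPolynomial.aeval (Sum.elim (ptD h α ℓ) (Sum.elim ζ α)) P‖ := by
          rw [← pow_mul, pow_succ, pow_add]
          ring
      _ ≤ (H * Y) ^ B * ‖MvPolynomial.aeval (Sum.elim (ptD h α ℓ) (Sum.elim ζ α)) P‖ :=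
          mul_le_mul_of_nonneg_right (pow_le_pow_right₀ hHY1 (by omega)) (norm_nonneg _)

/-- **Near relations between the values of several connected families of G-functions at almost all tuples**, in other
coordinates: `Gd B z x H` is a property which follows from `GdD` at the height `H ^ e`. -/
theorem torD {h : ∀ j, Fin (r j) → ℚ⟦X⟧} (hfam : ∀ j, Pool.Agent.Q246.AF.FAMN (h j))
    (hsize : ∀ j, ∃ C : ℝ, ∀ i m, |((coeff m (h j i) : ℚ) : ℝ)| ≤ C ^ (m + 1))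
    (hc : ∀ j, Pool.Agent.Y118.UL.Conn (h j)) {Z : Type} (g m d e R₁ : ℕ) (hm : 1 ≤ m) (he : 1 ≤ e)
    (zf : Z → Fin g → ℂ) (Gd : ℕ → Z → (Fin k → ℂ) → ℝ → Prop)
    (hgd : ∀ B₀ : ℕ, ∃ B : ℕ, ∀ T : ℕ, 1 ≤ T → ∃ H₀ : ℝ, ∀ z x H, H₀ ≤ H → (∀ j, AInt m T (x j)) →
      (∀ j, (R₁ : ℝ) < ‖x j‖) → GdD h d B₀ (zf z) x (H ^ e) → Gd B z x H)
    (hmono : ∀ B z x H H', 1 ≤ H → H ≤ H' → H' ≤ H ^ 2 → Gd B z x H' → Gd (2 * B) z x H) :
    ∃ (B : ℕ) (C c : ℝ), 0 < c ∧ ∀ T : ℕ, 1 ≤ T →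
    (∃ H₀ : ℝ, ∀ H₁ : ℝ, H₀ ≤ H₁ → ∀ z : Z,
      (({x : Fin k → ℂ | (∀ j, SInt m T (x j)) ∧ ¬ ∀ H : ℝ, H₁ ≤ H → H ≤ H₁ ^ Real.exp ((T : ℝ) ^ c) →
        Gd B z x H}.ncard : ℕ) : ℝ) ≤ C * (T : ℝ) ^ (-c) * (({ξ : ℂ | SInt m T ξ}.ncard : ℕ) : ℝ) ^ k) ∧
    ∀ z : Z, (({x : Fin k → ℂ | (∀ j, SInt m T (x j)) ∧ ¬ ∀ N₀ : ℕ, ∃ N, N₀ ≤ N ∧
      (({j : ℕ | j < N ∧ ¬ ∀ H : ℝ, 2 ^ (2 ^ j) ≤ H → H ≤ 2 ^ (2 ^ (j + 1)) → Gd B z x H}.ncard : ℕ) : ℝ) ≤
          (T : ℝ) ^ (-c) * N}.ncard : ℕ) : ℝ) ≤ C * (T : ℝ) ^ (-c) * (({ξ : ℂ | SInt m T ξ}.ncard : ℕ) : ℝ) ^ k := by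
  classical
  have hb := fun j => basis (h j) d
  choose ι c cc hc0 hLI hrel using hb
  have hfree := fun j => Pool.Agent.Y118.UL.exists_free (h j)
  choose I hI1 hI2 using hfree
  have hw := fun j => win_fam (hfam j) (hsize j) (hc j) (I := I j) ⟨hI1 j, hI2 j⟩ Complex.log
    (fun z hz => Complex.exp_log hz) (fun l : ι j => mb d l) (hLI j) d m
  choose G hG hwin using hw
  obtain ⟨D, R₀, hbad⟩ := hbad_famD hsize g m d hc0 hrel
  refine masterD m hm _ (fun z => ((max R₀ R₁ : ℕ) : ℝ) < ‖z‖) (max R₀ R₁) (fun z hz => not_lt.1 hz) G hG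
    (fun j => (hwin j).mono fun _ _ => trivial) D
    (e * (2 + k * d)) (Nat.mul_pos he (by omega)) (fun (z : Z) (f : Fin (g + 1) → Fin (D + 1)) =>
      ∏ s, (Fin.cons (2 * Real.pi * Complex.I) (zf z) : Fin (g + 1) → ℂ) s ^ (f s : ℕ)) Gd (fun B₀ => ?_) hmono
  obtain ⟨B₁, hB₁⟩ := hbad B₀
  obtain ⟨B, hB⟩ := hgd B₁
  refine ⟨B, fun T hT => ?_⟩
  obtain ⟨H₀, hH₀⟩ := hB₁ T hT
  obtain ⟨H₀', hH₀'⟩ := hB T hT
  refine ⟨max (max H₀ H₀') 1, fun z x H hH hx hx' hG => ?_⟩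
  have hH1 : 1 ≤ H := (le_max_right _ _).trans hH
  have hHa : H₀ ≤ H := (le_max_left _ _).trans ((le_max_left _ _).trans hH)
  have hHb : H₀' ≤ H := (le_max_right _ _).trans ((le_max_left _ _).trans hH)
  have hxa : ∀ j, (R₀ : ℝ) < ‖x j‖ := fun j => lt_of_le_of_lt (by exact_mod_cast le_max_left _ _) (hx' j)
  have hxb : ∀ j, (R₁ : ℝ) < ‖x j‖ := fun j => lt_of_le_of_lt (by exact_mod_cast le_max_right _ _) (hx' j)
  have h1 := hH₀ (zf z) x (H ^ e) (hHa.trans (le_self_pow₀ hH1 (by omega))) hx hxa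
    (fun hcon => hG (hH₀' z x H hHb hx hxb hcon))
  rw [← pow_mul] at h1
  exact h1

end Pool.Agent.Q189.MF
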