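import Pool.Agent.Q189.MF.MultiD
import Pool.Agent.Q246.NR2.PropN

/-!
# Almost all tuples, several families

The proof is that of `Pool.Agent.Q246.LN.masterL` (helper246), with a family for each point.
-/

set_option autoImplicit false

open Module

namespace Pool.Agent.Q189.MF

open Pool.Agent.Q246.NR Pool.Agent.Q246.NR2 Pool.Agent.Q246.LN Pool.Agent.Y916.Al Pool.Agent.Y916.Sl

/-- **Many heights, one exceptional set**, for almost all tuples of algebraic integers: the property `Gd`, which follows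
from the absence of near relations -/
theorem masterD {J Z : Type} [Fintype J] (m : ℕ) (hm : 1 ≤ m) {k : ℕ} {E : Fin k → Type} [∀ j, Fintype (E j)]
    (Y : ∀ j, ℂ → E j → ℂ) (Dm : ℂ → Prop) (R₀ : ℕ)
    (hDm : ∀ z, ¬ Dm z → ‖z‖ ≤ R₀) (G : Fin k → ℤ) (hG : ∀ j, G j ≠ 0) (hwin : ∀ j, WinL (Y j) Dm (G j) m)
    (D e₀ : ℕ) (he₀ : 1 ≤ e₀)
    (ζf : Z → J → ℂ)
    (Gd : ℕ → Z → (Fin k → ℂ) → ℝ → Prop)
    (hbad : ∀ B₀ : ℕ, ∃ B : ℕ, ∀ T : ℕ, 1 ≤ T → ∃ H₀ : ℝ, ∀ ζ x H, H₀ ≤ H → (∀ j, AInt m T (x j)) → (∀ j, Dm (x j)) →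
      ¬ Gd B ζ x H → RelD D (ζf ζ) Y x (H ^ e₀) ((H ^ e₀) ^ B₀)⁻¹)
    (hmono : ∀ B ζ x H H', 1 ≤ H → H ≤ H' → H' ≤ H ^ 2 → Gd B ζ x H' → Gd (2 * B) ζ x H) :
    ∃ (B : ℕ) (C c : ℝ), 0 < c ∧ ∀ T : ℕ, 1 ≤ T →
    (∃ H₀ : ℝ, ∀ H₁ : ℝ, H₀ ≤ H₁ → ∀ ζ : Z,
      (({x : Fin k → ℂ | (∀ j, SInt m T (x j)) ∧ ¬ ∀ H : ℝ, H₁ ≤ H → H ≤ H₁ ^ Real.exp ((T : ℝ) ^ c) →
        Gd B ζ x H}.ncard : ℕ) : ℝ) ≤ C * (T : ℝ) ^ (-c) * (({ξ : ℂ | SInt m T ξ}.ncard : ℕ) : ℝ) ^ k) ∧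
    ∀ ζ : Z, (({x : Fin k → ℂ | (∀ j, SInt m T (x j)) ∧ ¬ ∀ N₀ : ℕ, ∃ N, N₀ ≤ N ∧
      (({j : ℕ | j < N ∧ ¬ ∀ H : ℝ, 2 ^ (2 ^ j) ≤ H → H ≤ 2 ^ (2 ^ (j + 1)) → Gd B ζ x H}.ncard : ℕ) : ℝ) ≤
          (T : ℝ) ^ (-c) * N}.ncard : ℕ) : ℝ) ≤ C * (T : ℝ) ^ (-c) * (({ξ : ℂ | SInt m T ξ}.ncard : ℕ) : ℝ) ^ k := by
  classical
  obtain ⟨cm, hcm, hmany⟩ := many m hm
  have hOne := fun j => oneL_of (hG j) (hwin j)
  set C₀ : ℝ := (3 * 2 ^ m) ^ m * m with hC₀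
  have hC₀0 : 0 ≤ C₀ := by positivity
  obtain ⟨B₀, C₁, c₁, hC₁, hc₁, hmul⟩ := multiD (Mm m : ℝ) C₀ hC₀0 k E (fun _ T => (NF m T).filter fun ξ => Dm ξ)
    Y (fun j => by convert hOne j) (fun _ T hT => by
      refine le_trans ?_ ((card_NF m T hT).trans (le_of_eq ?_))
      · exact_mod_cast Finset.card_filter_le _ _
      · rw [Real.rpow_natCast]) D (Fintype.card J)
  obtain ⟨B, hB⟩ := hbad B₀
  set c : ℝ := min c₁ 1 with hc
  have hc0 : 0 < c := lt_min hc₁ one_pos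
  set X : ℕ → Finset (Fin k → ℂ) := fun T => Fintype.piFinset fun _ : Fin k => NF m T with hX
  set R₁ : ℕ := R₀ + 1 with hR₁
  set C₂ : ℝ := k * (C₀ * R₁) * C₀ ^ (k - 1) with hC₂
  have hC₂0 : 0 ≤ C₂ := by positivity
  -- tuples with a bad coordinate
  have hsmall : ∀ T : ℕ, 1 ≤ T → ((((X T).filter fun x => ¬ ∀ j, Dm (x j)).card : ℕ) : ℝ) ≤
      C₂ * (T : ℝ) ^ ((k : ℝ) * (Mm m : ℝ) - 1) := by
    intro T hT
    have hTR : (1 : ℝ) ≤ T := by exact_mod_cast hT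
    have hTp : (0 : ℝ) < T := by linarith
    have hsub : ((X T).filter fun x => ¬ ∀ j, Dm (x j)) ⊆
        Finset.univ.biUnion fun j : Fin k => Fintype.piFinset fun i : Fin k =>
          if i = j then (NF m T).filter fun ξ => ‖ξ‖ ≤ R₁ else NF m T := by
      intro x hx
      obtain ⟨hx1, hx2⟩ := Finset.mem_filter.1 hx
      push Not at hx2
      obtain ⟨j, hj⟩ := hx2
      refine Finset.mem_biUnion.2 ⟨j, Finset.mem_univ _, Fintype.mem_piFinset.2 fun i => ?_⟩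
      have h1 := Fintype.mem_piFinset.1 hx1 i
      split_ifs with hij
      · subst hij
        refine Finset.mem_filter.2 ⟨h1, (hDm _ hj).trans ?_⟩
        rw [hR₁]
        push_cast
        linarith
      · exact h1
    have h1 := (Finset.card_le_card hsub).trans Finset.card_biUnion_le
    have h2 : ∀ j : Fin k, (((Fintype.piFinset fun i : Fin k =>
          if i = j then (NF m T).filter fun ξ => ‖ξ‖ ≤ R₁ else NF m T).card : ℕ) : ℝ) ≤
        (C₀ * R₁) * C₀ ^ (k - 1) * (T : ℝ) ^ ((k : ℝ) * (Mm m : ℝ) - 1) := by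
      intro j
      rw [Fintype.card_piFinset, ← Finset.mul_prod_erase Finset.univ _ (Finset.mem_univ j), if_pos rfl]
      push_cast
      have h3 : ∏ i ∈ Finset.univ.erase j, (((if i = j then (NF m T).filter fun ξ => ‖ξ‖ ≤ R₁ else NF m T).card : ℕ) : ℝ) ≤
          (C₀ * (T : ℝ) ^ Mm m) ^ (k - 1) := by
        calc ∏ i ∈ Finset.univ.erase j, (((if i = j then (NF m T).filter fun ξ => ‖ξ‖ ≤ R₁ else NF m T).card : ℕ) : ℝ)
            ≤ ∏ _i ∈ Finset.univ.erase j, (C₀ * (T : ℝ) ^ Mm m) := by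
              refine Finset.prod_le_prod (fun _ _ => Nat.cast_nonneg _) fun i hi => ?_
              rw [if_neg (Finset.ne_of_mem_erase hi)]
              exact card_NF m T hT
          _ = _ := by
              rw [Finset.prod_const, Finset.card_erase_of_mem (Finset.mem_univ _), Finset.card_univ, Fintype.card_fin]
      have h4 : ((((NF m T).filter fun ξ => ‖ξ‖ ≤ R₁).card : ℕ) : ℝ) ≤ C₀ * R₁ * (T : ℝ) ^ Mm m / T := by
        rw [le_div_iff₀ hTp]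
        exact card_small m T R₁ hT (by omega)
      have hk1 : 1 ≤ k := by have := j.2; omega
      refine (mul_le_mul h4 h3 (Finset.prod_nonneg fun _ _ => Nat.cast_nonneg _) (by positivity)).trans (le_of_eq ?_)
      have h5 : (T : ℝ) ^ ((k : ℝ) * (Mm m : ℝ) - 1) = (T : ℝ) ^ Mm m * ((T : ℝ) ^ Mm m) ^ (k - 1) / T := by
        rw [Real.rpow_sub hTp, Real.rpow_one, ← pow_succ', Nat.sub_add_cancel hk1, ← pow_mul, ← Real.rpow_natCast]
        congr 2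
        push_cast
        ring
      rw [h5, mul_pow]
      ring
    calc ((((X T).filter fun x => ¬ ∀ j, Dm (x j)).card : ℕ) : ℝ) ≤ ∑ j : Fin k, (((Fintype.piFinset fun i : Fin k =>
          if i = j then (NF m T).filter fun ξ => ‖ξ‖ ≤ R₁ else NF m T).card : ℕ) : ℝ) := by exact_mod_cast h1
      _ ≤ ∑ _j : Fin k, (C₀ * R₁) * C₀ ^ (k - 1) * (T : ℝ) ^ ((k : ℝ) * (Mm m : ℝ) - 1) :=
          Finset.sum_le_sum fun j _ => h2 j
      _ = _ := by
          rw [Finset.sum_const, Finset.card_univ, Fintype.card_fin, nsmul_eq_mul, hC₂]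
          ring
  have hXc : ∀ T : ℕ, 1 ≤ T → ((X T).card : ℝ) ≤ C₀ ^ k * (T : ℝ) ^ ((k : ℝ) * (Mm m : ℝ)) := by
    intro T hT
    have hTR : (1 : ℝ) ≤ T := by exact_mod_cast hT
    have hTp : (0 : ℝ) < T := by linarith
    rw [hX, Fintype.card_piFinset]
    push_cast
    calc ∏ _j : Fin k, ((NF m T).card : ℝ) ≤ ∏ _j : Fin k, (C₀ * (T : ℝ) ^ Mm m) :=
          Finset.prod_le_prod (fun _ _ => Nat.cast_nonneg _) fun j _ => card_NF m T hT
      _ = C₀ ^ k * (T : ℝ) ^ ((k : ℝ) * (Mm m : ℝ)) := by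
          rw [Finset.prod_const, Finset.card_univ, Fintype.card_fin, mul_pow]
          congr 1
          rw [← pow_mul, ← Real.rpow_natCast]
          congr 1
          push_cast
          ring
  -- the basic statement
  have hbase : ∀ T : ℕ, 1 ≤ T → ∃ H₀ : ℝ, ∀ H : ℝ, H₀ ≤ H → ∀ ζ : Z,
      ((((X T).filter fun x => ¬ Gd B ζ x H).card : ℕ) : ℝ) ≤ (C₁ + C₂) * (T : ℝ) ^ ((k : ℝ) * (Mm m : ℝ) - c) := by
    intro T hT
    have hTR : (1 : ℝ) ≤ T := by exact_mod_cast hT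
    have hTp : (0 : ℝ) < T := by linarith
    obtain ⟨H₀, hH₀⟩ := hmul T hT
    obtain ⟨Hb, hB⟩ := hB T hT
    refine ⟨max (max H₀ Hb) 1, fun H hH ζ => ?_⟩
    have hH1 : 1 ≤ H := (le_max_right _ _).trans hH
    have hH2 : H₀ ≤ H := (le_max_left _ _).trans ((le_max_left _ _).trans hH)
    have hH3 : Hb ≤ H := (le_max_right _ _).trans ((le_max_left _ _).trans hH)
    have h1 := hH₀ (H ^ e₀) (hH2.trans (le_self_pow₀ hH1 (by omega))) J rfl (ζf ζ)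
      ((X T).filter fun x => (∀ j, Dm (x j)) ∧ ¬ Gd B ζ x H) (by
        intro x hx
        obtain ⟨hx1, hx2, -⟩ := Finset.mem_filter.1 hx
        exact Fintype.mem_piFinset.2 fun j => Finset.mem_filter.2 ⟨Fintype.mem_piFinset.1 hx1 j, hx2 j⟩) (by
        intro x hx
        obtain ⟨hx1, hx2, hx3⟩ := Finset.mem_filter.1 hx
        exact hB ζ x H hH3 (fun j => mem_NF.1 (Fintype.mem_piFinset.1 hx1 j)) hx2 hx3)
    have hcov : ((X T).filter fun x => ¬ Gd B ζ x H) ⊆ ((X T).filter fun x => (∀ j, Dm (x j)) ∧ ¬ Gd B ζ x H) ∪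
        ((X T).filter fun x => ¬ ∀ j, Dm (x j)) := by
      intro x hx
      obtain ⟨hx1, hx2⟩ := Finset.mem_filter.1 hx
      rw [Finset.mem_union]
      by_cases h : ∀ j, Dm (x j)
      · exact Or.inl (Finset.mem_filter.2 ⟨hx1, h, hx2⟩)
      · exact Or.inr (Finset.mem_filter.2 ⟨hx1, h⟩)
    have h2 := (Finset.card_le_card hcov).trans (Finset.card_union_le _ _)
    have h3 : ((((X T).filter fun x => ¬ Gd B ζ x H).card : ℕ) : ℝ) ≤
        ((((X T).filter fun x => (∀ j, Dm (x j)) ∧ ¬ Gd B ζ x H).card : ℕ) : ℝ) +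
        ((((X T).filter fun x => ¬ ∀ j, Dm (x j)).card : ℕ) : ℝ) := by exact_mod_cast h2
    refine h3.trans ((add_le_add h1 (hsmall T hT)).trans ?_)
    rw [add_mul]
    refine add_le_add ?_ ?_
    · exact mul_le_mul_of_nonneg_left (Real.rpow_le_rpow_of_exponent_le hTR (by
        have := min_le_left c₁ 1
        linarith)) hC₁
    · exact mul_le_mul_of_nonneg_left (Real.rpow_le_rpow_of_exponent_le hTR (by
        have := min_le_right c₁ 1
        linarith)) hC₂0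
  -- many heights
  have hfin := scales X (fun (ζ : Z) x H => Gd B ζ x H) (fun ζ x H => Gd (2 * B) ζ x H)
    (fun ζ x H H' h1 h2 h3 hg => hmono B ζ x H H' h1 h2 h3 hg) ((k : ℝ) * (Mm m : ℝ)) (C₀ ^ k) (C₁ + C₂) c
    (by positivity) (by positivity) hc0 hXc hbase
  refine ⟨2 * B, max (4 * (C₁ + C₂) + 1) 0 / cm ^ k, c / 2, by linarith, fun T hT => ?_⟩
  have hTR : (1 : ℝ) ≤ T := by exact_mod_cast hT
  have hTp : (0 : ℝ) < T := by linarith
  obtain ⟨⟨H₀, h1⟩, h2⟩ := hfin T hT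
  -- comparison
  have key : ∀ p : (Fin k → ℂ) → Prop,
      ((((X T).filter fun x => ¬ p x).card : ℕ) : ℝ) ≤
        (4 * (C₁ + C₂) + 1) * (T : ℝ) ^ ((k : ℝ) * (Mm m : ℝ) - c / 2) →
      (({x : Fin k → ℂ | (∀ j, SInt m T (x j)) ∧ ¬ p x}.ncard : ℕ) : ℝ) ≤
        max (4 * (C₁ + C₂) + 1) 0 / cm ^ k * (T : ℝ) ^ (-(c / 2)) * (({ξ : ℂ | SInt m T ξ}.ncard : ℕ) : ℝ) ^ k := by
    intro p hp
    have hsub : {x : Fin k → ℂ | (∀ j, SInt m T (x j)) ∧ ¬ p x} ⊆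
        (((X T).filter fun x => ¬ p x : Finset (Fin k → ℂ)) : Set (Fin k → ℂ)) := by
      rintro x ⟨hx, hpx⟩
      rw [Finset.mem_coe, Finset.mem_filter, hX, Fintype.mem_piFinset]
      exact ⟨fun j => mem_NF.2 (hx j).aint, hpx⟩
    have h3 := Set.ncard_le_ncard hsub (Finset.finite_toSet _)
    rw [Set.ncard_coe_finset] at h3
    have h4 : (({x : Fin k → ℂ | (∀ j, SInt m T (x j)) ∧ ¬ p x}.ncard : ℕ) : ℝ) ≤
        (4 * (C₁ + C₂) + 1) * (T : ℝ) ^ ((k : ℝ) * (Mm m : ℝ) - c / 2) := le_trans (by exact_mod_cast h3) hp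
    refine h4.trans ?_
    have h5 := prop_bound (c := c / 2) (C := max (4 * (C₁ + C₂) + 1) 0) hcm (le_max_right _ _) (k := k) (M := Mm m) hT
      (hmany T hT)
    refine le_trans ?_ h5
    have h6 : ((k * Mm m : ℕ) : ℝ) - c / 2 = (k : ℝ) * (Mm m : ℝ) - c / 2 := by push_cast; ring
    rw [h6]
    exact mul_le_mul_of_nonneg_right (le_max_left _ _) (Real.rpow_nonneg hTp.le _)
  have hsetj : ∀ (N : ℕ) (p : ℕ → Prop), {j : ℕ | j < N ∧ p j}.ncard = ((Finset.range N).filter p).card := by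
    intro N p
    have : {j : ℕ | j < N ∧ p j} = (((Finset.range N).filter p : Finset ℕ) : Set ℕ) := by
      ext j
      rw [Finset.mem_coe, Finset.mem_filter, Finset.mem_range]
      rfl
    rw [this, Set.ncard_coe_finset]
  refine ⟨⟨H₀, fun H₁ hH₁ ζ => ?_⟩, fun ζ => ?_⟩
  · refine key _ ?_
    convert h1 H₁ hH₁ ζ
  · simp only [hsetj]
    refine key _ ?_
    convert h2 ζ

end Pool.Agent.Q189.MF
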